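import Pool.Agent.Run7.h271.CC.Core

/-! Conditional means on the conjugacy classes of finite groups: abstract consequences. -/

set_option autoImplicit false
set_option linter.style.haveILetI false

namespace Pool.Agent.Run7.h271.CC

open Filter Topology

section prod

variable {Γ : Type} [Group Γ] (U U' : Subgroup Γ) [U.Normal] [U'.Normal]

/-- the quotient by an intersection -/
def prj1 : Γ ⧸ (U ⊓ U') →* Γ ⧸ U :=
  QuotientGroup.map (U ⊓ U') U (MonoidHom.id _) (fun _ hx => hx.1)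

/-- the quotient by an intersection -/
def prj2 : Γ ⧸ (U ⊓ U') →* Γ ⧸ U' :=
  QuotientGroup.map (U ⊓ U') U' (MonoidHom.id _) (fun _ hx => hx.2)

theorem prj1_mk (τ : Γ) : prj1 U U' (QuotientGroup.mk τ) = QuotientGroup.mk τ := rfl

theorem prj2_mk (τ : Γ) : prj2 U U' (QuotientGroup.mk τ) = QuotientGroup.mk τ := rfl

theorem prj_bij (hUU : U ⊔ U' = ⊤) :
    Function.Bijective (fun q => (prj1 U U' q, prj2 U U' q)) := by
  constructor
  · intro a b hab
    obtain ⟨α, rfl⟩ := QuotientGroup.mk_surjective a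
    obtain ⟨β, rfl⟩ := QuotientGroup.mk_surjective b
    simp only [Prod.mk.injEq, prj1_mk, prj2_mk, QuotientGroup.eq] at hab
    exact QuotientGroup.eq.2 hab
  · rintro ⟨a, b⟩
    obtain ⟨α, rfl⟩ := QuotientGroup.mk_surjective a
    obtain ⟨β, rfl⟩ := QuotientGroup.mk_surjective b
    have h1 : α⁻¹ * β ∈ U ⊔ U' := by rw [hUU]; trivial
    obtain ⟨y, hy, z, hz, hyz⟩ := Subgroup.mem_sup_of_normal_right.1 h1
    refine ⟨QuotientGroup.mk (α * y), ?_⟩
    simp only [Prod.mk.injEq, prj1_mk, prj2_mk, QuotientGroup.eq]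
    constructor
    · have : (α * y)⁻¹ * α = y⁻¹ := by group
      rw [this]; exact U.inv_mem hy
    · have : (α * y)⁻¹ * β = z := by
        have h2 : β = α * (y * z) := by rw [hyz]; group
        rw [h2]; group
      rw [this]; exact hz

theorem prj_sum [Fintype (Γ ⧸ (U ⊓ U'))] [Fintype (Γ ⧸ U)] [Fintype (Γ ⧸ U')]
    (hUU : U ⊔ U' = ⊤) (g : Γ ⧸ U) (g' : Γ ⧸ U') :
    (Fintype.card (Γ ⧸ (U ⊓ U')) : ℂ)⁻¹ *
      ∑ q, (kap g (prj1 U U' q) : ℂ) * (kap g' (prj2 U U' q) : ℂ) =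
    (Fintype.card (Γ ⧸ U) : ℂ)⁻¹ * (Fintype.card (Γ ⧸ U') : ℂ)⁻¹ := by
  let e := Equiv.ofBijective _ (prj_bij U U' hUU)
  have hcard : (Fintype.card (Γ ⧸ (U ⊓ U')) : ℂ)⁻¹ =
      (Fintype.card (Γ ⧸ U) : ℂ)⁻¹ * (Fintype.card (Γ ⧸ U') : ℂ)⁻¹ := by
    rw [Fintype.card_congr e, Fintype.card_prod, Nat.cast_mul, mul_inv]
  have hsum : ∑ q, (kap g (prj1 U U' q) : ℂ) * (kap g' (prj2 U U' q) : ℂ) = 1 := by
    have h1 : ∑ q, (kap g (prj1 U U' q) : ℂ) * (kap g' (prj2 U U' q) : ℂ) =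
        ∑ x : (Γ ⧸ U) × (Γ ⧸ U'), (kap g x.1 : ℂ) * (kap g' x.2 : ℂ) :=
      e.sum_comp (fun x => (kap g x.1 : ℂ) * (kap g' x.2 : ℂ))
    rw [h1, Fintype.sum_prod_type]
    simp only
    rw [← Finset.sum_mul_sum, ← Complex.ofReal_sum, ← Complex.ofReal_sum, kap_sum, kap_sum]
    simp
  rw [hcard, hsum, mul_one]

end prod

section weights

variable {Q : Type} [Group Q] [Fintype Q]

open Classical in
/-- the density of the class of `g` -/
noncomputable def wt (g : Q) : ℝ :=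
  ((Finset.univ.filter fun b : Q => IsConj g b).card : ℝ) / (Fintype.card Q : ℝ)

theorem wt_pos (g : Q) : 0 < wt g := by
  classical
  unfold wt
  have := cl_pos g
  have h2 : 0 < Fintype.card Q := Fintype.card_pos
  positivity

open Classical in
/-- the conditional mean on a class -/
theorem Ec_eq {V : Type} (T : Finset V) (q : V → Q) (F : V → ℂ) (g : Q) :
    Ec T q F g = (∑ v ∈ T.filter (fun v => IsConj g (q v)), F v) /
      ((T.filter (fun v => IsConj g (q v))).card : ℂ) := by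
  set k : ℝ := ((Finset.univ.filter fun b : Q => IsConj g b).card : ℝ)⁻¹ with hk
  have hc : k ≠ 0 := by
    have := cl_pos g
    positivity
  have hc' : (k : ℂ) ≠ 0 := by exact_mod_cast hc
  have h0 : ∀ a, kap g a = if IsConj g a then k else 0 := fun a => rfl
  have h1 : ∀ v, F v * (kap g (q v) : ℂ) = if IsConj g (q v) then F v * (k : ℂ) else 0 := by
    intro v
    rw [h0]
    split_ifs
    · rfl
    · simp
  have h2 : ∀ v, (kap g (q v) : ℂ) = if IsConj g (q v) then (k : ℂ) else 0 := by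
    intro v
    rw [h0]
    split_ifs
    · rfl
    · simp
  unfold Ec
  rw [Finset.sum_congr rfl fun v _ => h1 v, Finset.sum_congr rfl fun v _ => h2 v,
    ← Finset.sum_filter, ← Finset.sum_filter, ← Finset.sum_mul, Finset.sum_const, nsmul_eq_mul,
    mul_div_mul_right _ _ hc']

/-- the conditional mean on a class -/
theorem Ec_eq' {V : Type} (T : Finset V) (q : V → Q) (F : V → ℂ) (g : Q) (S : Set V)
    [DecidablePred (· ∈ S)] (hS : ∀ v, v ∈ S ↔ IsConj g (q v)) :
    Ec T q F g = (∑ v ∈ T.filter (· ∈ S), F v) / ((T.filter (· ∈ S)).card : ℂ) := by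
  classical
  rw [Ec_eq]
  have h : (T.filter fun v => IsConj g (q v)) = T.filter (· ∈ S) := by
    ext v
    rw [Finset.mem_filter, Finset.mem_filter, hS]
  rw [h]

/-- lower bound for the variance of the conditional means by the contribution of one class -/
theorem one_class {V : Type} (T : Finset V) (q : V → Q) (F : V → ℂ) (g : Q) (m : ℂ) (δ : ℝ)
    (hδ : 0 ≤ δ) (h : δ ≤ ‖Ec T q F g - m‖) :
    wt g * δ ^ 2 ≤ (Fintype.card Q : ℝ)⁻¹ * ∑ a, ‖Ec T q F a - m‖ ^ 2 := by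
  classical
  have h3 : ∑ a ∈ Finset.univ.filter (fun b => IsConj g b), δ ^ 2 ≤
      ∑ a ∈ Finset.univ.filter (fun b => IsConj g b), ‖Ec T q F a - m‖ ^ 2 := by
    refine Finset.sum_le_sum fun a ha => ?_
    rw [Finset.mem_filter] at ha
    obtain ⟨t, ht⟩ := isConj_iff.1 ha.2
    rw [← ht, Ec_conj]
    exact pow_le_pow_left₀ hδ h 2
  have h3' : ∑ a ∈ Finset.univ.filter (fun b => IsConj g b), ‖Ec T q F a - m‖ ^ 2 ≤
      ∑ a, ‖Ec T q F a - m‖ ^ 2 :=
    Finset.sum_le_sum_of_subset_of_nonneg (Finset.filter_subset _ _) fun a _ _ => sq_nonneg _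
  have h4 := h3.trans h3'
  rw [Finset.sum_const, nsmul_eq_mul] at h4
  unfold wt
  rw [div_mul_eq_mul_div, div_eq_inv_mul]
  exact mul_le_mul_of_nonneg_left h4 (inv_nonneg.2 (Nat.cast_nonneg _))

end weights

section descent

variable {V : Type}

theorem mean_sq_le (T : Finset V) (F : V → ℂ) (B : ℝ) (hB : ∀ v, ‖F v‖ ≤ B) :
    (∑ v ∈ T, ‖F v‖ ^ 2) / T.card ≤ B ^ 2 := by
  refine div_le_of_le_mul₀ (Nat.cast_nonneg _) (by positivity) ?_
  refine (Finset.sum_le_sum fun v _ => pow_le_pow_left₀ (norm_nonneg _) (hB v) 2).trans ?_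
  rw [Finset.sum_const, nsmul_eq_mul, mul_comm]

/-- from the classes to everything -/
theorem descent_abs {I : Type} (T : ℕ → Finset V) (Q : I → Type)
    [∀ i, Group (Q i)] [∀ i, Fintype (Q i)] (q : ∀ i, V → Q i) (F : V → ℂ) (B : ℝ)
    (hB : ∀ v, ‖F v‖ ≤ B)
    (hvar : ∀ s : Finset I, ∀ ε : ℝ, 0 < ε → ∀ᶠ N in atTop,
      ∑ i : s, (Fintype.card (Q i.1) : ℝ)⁻¹ * ∑ g, ‖Ec (T N) (q i.1) F g - mn (T N) F‖ ^ 2 ≤
      (∑ v ∈ T N, ‖F v‖ ^ 2) / (T N).card - ‖mn (T N) F‖ ^ 2 + ε)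
    (g : ∀ i, Q i) (hw : ¬ Summable fun i => wt (g i)) (c : ℂ)
    (hE : ∀ i, Tendsto (fun N => Ec (T N) (q i) F (g i)) atTop (𝓝 c)) :
    Tendsto (fun N => mn (T N) F) atTop (𝓝 c) := by
  classical
  rw [Metric.tendsto_nhds]
  intro ε hε
  set R : ℝ := 4 * (B ^ 2 + 1) / ε ^ 2 + 1 with hR
  have hex : ∃ s : Finset I, R < ∑ i ∈ s, wt (g i) := by
    by_contra hcon
    push Not at hcon
    exact hw (summable_of_sum_le (fun i => (wt_pos (g i)).le) hcon)
  obtain ⟨s, hs⟩ := hex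
  have hE2 : ∀ᶠ N in atTop, ∀ i : s, ‖Ec (T N) (q i.1) F (g i.1) - c‖ < ε / 2 := by
    rw [Filter.eventually_all]
    intro i
    have := (Metric.tendsto_nhds.1 (hE i.1)) (ε / 2) (by linarith)
    filter_upwards [this] with N hN
    rwa [dist_eq_norm] at hN
  filter_upwards [hvar s 1 one_pos, hE2] with N h1 h2
  rw [dist_eq_norm]
  by_contra hcon
  push Not at hcon
  have hA := mean_sq_le (T N) F B hB
  have hlow : ∀ i : s, wt (g i.1) * (ε / 2) ^ 2 ≤ (Fintype.card (Q i.1) : ℝ)⁻¹ *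
        ∑ a, ‖Ec (T N) (q i.1) F a - mn (T N) F‖ ^ 2 := by
    intro i
    refine one_class _ _ _ _ _ _ (by linarith) ?_
    have h5 := h2 i
    have h6 : ‖mn (T N) F - c‖ ≤ ‖Ec (T N) (q i.1) F (g i.1) - c‖ +
        ‖Ec (T N) (q i.1) F (g i.1) - mn (T N) F‖ := by
      have : mn (T N) F - c = (Ec (T N) (q i.1) F (g i.1) - c) -
        (Ec (T N) (q i.1) F (g i.1) - mn (T N) F) := by ring
      rw [this]
      exact norm_sub_le _ _
    linarith
  have h7 := (Finset.sum_le_sum (s := Finset.univ) fun (i : s) _ => hlow i).trans h1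
  rw [← Finset.sum_mul, Finset.sum_coe_sort s fun i => wt (g i)] at h7
  have h8 : (∑ i ∈ s, wt (g i)) * (ε / 2) ^ 2 ≤ B ^ 2 + 1 := by
    have : (0 : ℝ) ≤ ‖mn (T N) F‖ ^ 2 := by positivity
    linarith
  have h9 : R * (ε / 2) ^ 2 ≤ (∑ i ∈ s, wt (g i)) * (ε / 2) ^ 2 :=
    mul_le_mul_of_nonneg_right hs.le (by positivity)
  have h10 : R * (ε / 2) ^ 2 = (B ^ 2 + 1) + (ε / 2) ^ 2 := by
    rw [hR]
    field_simp
    ring
  have h11 : 0 < (ε / 2) ^ 2 := by positivity
  linarith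

end descent

section finite_change

variable {V Q : Type} [Group Q] [Fintype Q]

open Classical in
/-- changing the set of primes by a finite set -/
theorem Ec_sub_abs (T : ℕ → Finset V) (hn : Tendsto (fun N => ((T N).card : ℝ)) atTop atTop)
    (q : V → Q) (g : Q)
    (hk : Tendsto (fun N => mn (T N) fun v => (kap g (q v) : ℂ)) atTop
      (𝓝 ((Fintype.card Q : ℂ)⁻¹)))
    (S : Set V) (hS : {v | ¬ (v ∈ S ↔ IsConj g (q v))}.Finite)
    (F : V → ℂ) (B : ℝ) (hB0 : 0 ≤ B) (hB : ∀ v, ‖F v‖ ≤ B) :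
    Tendsto (fun N => Ec (T N) q F g - (∑ v ∈ (T N).filter (· ∈ S), F v) /
      (((T N).filter (· ∈ S)).card : ℂ)) atTop (𝓝 0) := by
  set D := hS.toFinset with hD
  -- the numbers
  set bS : ℕ → ℂ := fun N => (((T N).filter (· ∈ S)).card : ℂ) / ((T N).card : ℂ) with hbS
  set bU : ℕ → ℂ := fun N => (((T N).filter (fun v => IsConj g (q v))).card : ℂ) /
    ((T N).card : ℂ) with hbU
  set aS : ℕ → ℂ := fun N => (∑ v ∈ (T N).filter (· ∈ S), F v) / ((T N).card : ℂ)
    with haS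
  set aU : ℕ → ℂ := fun N => (∑ v ∈ (T N).filter (fun v => IsConj g (q v)), F v) /
    ((T N).card : ℂ) with haU
  have hdiff : ∀ (φ : V → ℂ) (A : ℝ), 0 ≤ A → (∀ v, ‖φ v‖ ≤ A) →
      Tendsto (fun N => (∑ v ∈ (T N).filter (fun v => IsConj g (q v)), φ v) /
        ((T N).card : ℂ) - (∑ v ∈ (T N).filter (· ∈ S), φ v) /
        ((T N).card : ℂ)) atTop (𝓝 0) := by
    intro φ A hA0 hA
    rw [tendsto_zero_iff_norm_tendsto_zero]
    have h1 : Tendsto (fun N => (A * (D.card : ℝ)) / ((T N).card : ℝ)) atTop (𝓝 0) :=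
      tendsto_const_nhds.div_atTop hn
    refine squeeze_zero (fun N => norm_nonneg _) (fun N => ?_) h1
    rw [← sub_div, norm_div, Complex.norm_natCast]
    refine div_le_div_of_nonneg_right ?_ (Nat.cast_nonneg _)
    rw [Finset.sum_filter, Finset.sum_filter, ← Finset.sum_sub_distrib]
    have h2 : ∑ v ∈ T N, ((if IsConj g (q v) then φ v else 0) - if v ∈ S then φ v else 0) =
        ∑ v ∈ (T N).filter (· ∈ D),
          ((if IsConj g (q v) then φ v else 0) - if v ∈ S then φ v else 0) := by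
      rw [Finset.sum_filter]
      refine Finset.sum_congr rfl fun v _ => ?_
      by_cases hv : v ∈ D
      · rw [if_pos hv]
      · rw [if_neg hv]
        have h3 : (v ∈ S ↔ IsConj g (q v)) := by
          by_contra hcon
          exact hv (by rw [hD, Set.Finite.mem_toFinset]; exact hcon)
        by_cases h4 : v ∈ S
        · rw [if_pos h4, if_pos (h3.1 h4), sub_self]
        · rw [if_neg h4, if_neg (fun k => h4 (h3.2 k)), sub_self]
    rw [h2]
    refine (norm_sum_le _ _).trans ?_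
    have h5 : ∀ v ∈ (T N).filter (· ∈ D),
        ‖(if IsConj g (q v) then φ v else 0) - if v ∈ S then φ v else 0‖ ≤ A := by
      intro v hv
      rw [Finset.mem_filter, hD, Set.Finite.mem_toFinset] at hv
      have h6 : ¬ (v ∈ S ↔ IsConj g (q v)) := hv.2
      have hA0 := hA v
      by_cases h7 : IsConj g (q v)
      · by_cases h8 : v ∈ S
        · exact absurd ⟨fun _ => h7, fun _ => h8⟩ h6
        · rw [if_pos h7, if_neg h8, sub_zero]
          exact hA0
      · by_cases h8 : v ∈ S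
        · rw [if_neg h7, if_pos h8, zero_sub, norm_neg]
          exact hA0
        · exact absurd ⟨fun k => absurd k h8, fun k => absurd k h7⟩ h6
    refine (Finset.sum_le_sum h5).trans ?_
    rw [Finset.sum_const, nsmul_eq_mul, mul_comm]
    refine mul_le_mul_of_nonneg_left ?_ hA0
    have h9 : (T N).filter (· ∈ D) ⊆ D := fun v hv => (Finset.mem_filter.1 hv).2
    exact_mod_cast Finset.card_le_card h9
  -- the density of the class
  have hcl0 : ((Finset.univ.filter fun b : Q => IsConj g b).card : ℂ) ≠ 0 := by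
    have := cl_pos g
    exact_mod_cast this.ne'
  set d : ℂ := ((Finset.univ.filter fun b : Q => IsConj g b).card : ℂ) *
    (Fintype.card Q : ℂ)⁻¹ with hd
  have hd0 : d ≠ 0 := by
    refine mul_ne_zero hcl0 (inv_ne_zero ?_)
    exact_mod_cast Fintype.card_ne_zero
  have hbUlim : Tendsto bU atTop (𝓝 d) := by
    have h1 := hk.const_mul ((Finset.univ.filter fun b : Q => IsConj g b).card : ℂ)
    refine h1.congr fun N => ?_
    simp only [hbU, mn]
    rw [← mul_div_assoc]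
    congr 1
    rw [Finset.mul_sum, Finset.card_filter (fun v => IsConj g (q v)) (T N), Nat.cast_sum]
    refine Finset.sum_congr rfl fun v _ => ?_
    unfold kap
    by_cases h7 : IsConj g (q v)
    · rw [if_pos h7, if_pos h7]
      push_cast
      rw [mul_inv_cancel₀ hcl0]
    · rw [if_neg h7, if_neg h7]
      simp
  have hbSlim : Tendsto bS atTop (𝓝 d) := by
    have h1 := hdiff (fun _ => 1) 1 zero_le_one (fun v => by simp)
    have h2 := hbUlim.sub h1
    rw [sub_zero] at h2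
    refine h2.congr fun N => ?_
    simp only [hbU, hbS, Finset.sum_const, nsmul_eq_mul, mul_one]
    ring
  have haSb : ∀ N, ‖aS N‖ ≤ B := by
    intro N
    simp only [haS]
    rw [norm_div, Complex.norm_natCast]
    refine div_le_of_le_mul₀ (Nat.cast_nonneg _) hB0 ?_
    refine (norm_sum_le _ _).trans ((Finset.sum_le_sum fun v _ => hB v).trans ?_)
    rw [Finset.sum_const, nsmul_eq_mul, mul_comm]
    refine mul_le_mul_of_nonneg_left ?_ hB0
    exact_mod_cast Finset.card_le_card (Finset.filter_subset _ _)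
  have h1 : Tendsto (fun N => (aU N - aS N) / bU N) atTop (𝓝 0) := by
    have := (hdiff F B hB0 hB).div hbUlim hd0
    rwa [zero_div] at this
  have h2 : Tendsto (fun N => aS N * ((bU N)⁻¹ - (bS N)⁻¹)) atTop (𝓝 0) := by
    refine bdd_zero haSb ?_
    have := (hbUlim.inv₀ hd0).sub (hbSlim.inv₀ hd0)
    rwa [sub_self] at this
  have h3 := h1.add h2
  rw [add_zero] at h3
  refine h3.congr' ?_
  filter_upwards [hn.eventually_gt_atTop 0] with N hN
  have hN' : ((T N).card : ℂ) ≠ 0 := by exact_mod_cast hN.ne'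
  have h4 : Ec (T N) q F g = aU N / bU N := by
    rw [Ec_eq]
    simp only [haU, hbU]
    rw [div_div_div_cancel_right₀ hN']
  have h5 : (∑ v ∈ (T N).filter (· ∈ S), F v) / (((T N).filter (· ∈ S)).card : ℂ) =
      aS N / bS N := by
    simp only [haS, hbS]
    rw [div_div_div_cancel_right₀ hN']
  rw [h4, h5]
  ring

open Classical in
/-- changing the set of primes by a finite set -/
theorem Ec_tendsto_abs (T : ℕ → Finset V) (hn : Tendsto (fun N => ((T N).card : ℝ)) atTop atTop)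
    (q : V → Q) (g : Q)
    (hk : Tendsto (fun N => mn (T N) fun v => (kap g (q v) : ℂ)) atTop
      (𝓝 ((Fintype.card Q : ℂ)⁻¹)))
    (S : Set V) (hS : {v | ¬ (v ∈ S ↔ IsConj g (q v))}.Finite)
    (F : V → ℂ) (B : ℝ) (hB0 : 0 ≤ B) (hB : ∀ v, ‖F v‖ ≤ B) (c : ℂ)
    (h : Tendsto (fun N => (∑ v ∈ (T N).filter (· ∈ S), F v) /
      (((T N).filter (· ∈ S)).card : ℂ)) atTop (𝓝 c)) :
    Tendsto (fun N => Ec (T N) q F g) atTop (𝓝 c) := by
  have h1 := (Ec_sub_abs T hn q g hk S hS F B hB0 hB).add h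
  rw [zero_add] at h1
  refine h1.congr fun N => ?_
  ring

end finite_change

section few

variable {V : Type}

/-- along an ultrafilter only few of the families of conditional means are far from the mean -/
theorem few_abs {I : Type} (T : ℕ → Finset V) (Q : I → Type)
    [∀ i, Group (Q i)] [∀ i, Fintype (Q i)] (q : ∀ i, V → Q i) (F : V → ℂ) (B : ℝ)
    (hB : ∀ v, ‖F v‖ ≤ B)
    (hvar : ∀ s : Finset I, ∀ ε : ℝ, 0 < ε → ∀ᶠ N in atTop,
      ∑ i : s, (Fintype.card (Q i.1) : ℝ)⁻¹ * ∑ g, ‖Ec (T N) (q i.1) F g - mn (T N) F‖ ^ 2 ≤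
      (∑ v ∈ T N, ‖F v‖ ^ 2) / (T N).card - ‖mn (T N) F‖ ^ 2 + ε)
    (w : Ultrafilter ℕ) (hw : (w : Filter ℕ) ≤ atTop) (δ : ℝ) (s : Finset I)
    (hs : ∀ i ∈ s, ∀ ε : ℝ, 0 < ε → ∀ᶠ N in (w : Filter ℕ),
      δ ^ 2 - ε < (Fintype.card (Q i) : ℝ)⁻¹ * ∑ g, ‖Ec (T N) (q i) F g - mn (T N) F‖ ^ 2) :
    (s.card : ℝ) * δ ^ 2 ≤ B ^ 2 := by
  refine le_of_forall_pos_le_add fun ε hε => ?_
  set η : ℝ := ε / (s.card + 1) with hη
  have hη0 : 0 < η := by positivity
  have h1 := (hvar s η hη0).filter_mono hw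
  have h2 : ∀ᶠ N in (w : Filter ℕ), ∀ i : s,
      δ ^ 2 - η < (Fintype.card (Q i.1) : ℝ)⁻¹ *
        ∑ g, ‖Ec (T N) (q i.1) F g - mn (T N) F‖ ^ 2 := by
    rw [Filter.eventually_all]
    intro i
    exact hs i.1 i.2 η hη0
  obtain ⟨N, h3, h4⟩ := (h1.and h2).exists
  have h5 : ∑ _i : s, (δ ^ 2 - η) ≤ ∑ i : s, (Fintype.card (Q i.1) : ℝ)⁻¹ *
      ∑ g, ‖Ec (T N) (q i.1) F g - mn (T N) F‖ ^ 2 :=
    Finset.sum_le_sum fun i _ => (h4 i).le
  rw [Finset.sum_const, nsmul_eq_mul, Finset.card_univ, Fintype.card_coe] at h5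
  have h6 := mean_sq_le (T N) F B hB
  have h7 : (0 : ℝ) ≤ ‖mn (T N) F‖ ^ 2 := by positivity
  have h8 : ((s.card : ℝ) + 1) * η = ε := by
    rw [hη]
    field_simp
  nlinarith

end few

end Pool.Agent.Run7.h271.CC
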