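import Mathlib

/-! Conditional means on the conjugacy classes of finite groups: the inequality for the variances. -/

set_option autoImplicit false
set_option linter.style.haveILetI false

namespace Pool.Agent.Run7.h271.CC

open Filter Topology

section kap

variable {Q : Type} [Group Q] [Fintype Q]

open Classical in
/-- the normalised indicator function of the conjugacy class of `g` -/
noncomputable def kap (g a : Q) : ℝ :=
  if IsConj g a then ((Finset.univ.filter fun b : Q => IsConj g b).card : ℝ)⁻¹ else 0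

open Classical in
theorem cl_card {g h : Q} (e : IsConj g h) :
    (Finset.univ.filter fun b : Q => IsConj g b).card =
      (Finset.univ.filter fun b : Q => IsConj h b).card := by
  congr 1
  ext b
  simp only [Finset.mem_filter, Finset.mem_univ, true_and]
  exact ⟨fun k => e.symm.trans k, fun k => e.trans k⟩

open Classical in
theorem cl_pos (g : Q) : 0 < (Finset.univ.filter fun b : Q => IsConj g b).card :=
  Finset.card_pos.2 ⟨g, Finset.mem_filter.2 ⟨Finset.mem_univ _, IsConj.refl g⟩⟩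

theorem kap_congr {g h : Q} (e : IsConj g h) (a : Q) : kap g a = kap h a := by
  classical
  unfold kap
  rw [cl_card e]
  have : IsConj g a ↔ IsConj h a := ⟨fun k => e.symm.trans k, fun k => e.trans k⟩
  simp only [this]

theorem kap_conj (g a t : Q) : kap g (t * a * t⁻¹) = kap g a := by
  classical
  unfold kap
  have : IsConj g (t * a * t⁻¹) ↔ IsConj g a := by
    have h1 : IsConj a (t * a * t⁻¹) := isConj_iff.2 ⟨t, rfl⟩
    exact ⟨fun k => k.trans h1.symm, fun k => k.trans h1⟩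
  simp only [this]

theorem kap_nonneg (g a : Q) : 0 ≤ kap g a := by
  unfold kap
  split_ifs
  · positivity
  · exact le_rfl

theorem kap_sum (g : Q) : ∑ a, kap g a = 1 := by
  classical
  unfold kap
  rw [← Finset.sum_filter, Finset.sum_const, nsmul_eq_mul]
  have := cl_pos g
  exact mul_inv_cancel₀ (by exact_mod_cast this.ne')

theorem expand (H : Q → ℂ) (hH : ∀ a t, H (t * a * t⁻¹) = H a) (a : Q) :
    ∑ g, H g * (kap g a : ℂ) = H a := by
  classical
  have h1 : ∀ g, H g * (kap g a : ℂ) = H a * (kap a g : ℂ) := by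
    intro g
    unfold kap
    by_cases h : IsConj g a
    · rw [if_pos h, if_pos h.symm, cl_card h]
      obtain ⟨t, ht⟩ := isConj_iff.1 h
      rw [← ht, hH]
    · rw [if_neg h, if_neg (fun k => h k.symm)]
      simp
  rw [Finset.sum_congr rfl fun g _ => h1 g, ← Finset.mul_sum, ← Complex.ofReal_sum, kap_sum]
  simp

end kap

section mean

variable {V Q : Type} [Group Q] [Fintype Q] (T : Finset V) (q : V → Q) (F : V → ℂ)

/-- the mean value over `T` -/
noncomputable def mn (T : Finset V) (F : V → ℂ) : ℂ := (∑ v ∈ T, F v) / (T.card : ℂ)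

/-- the conditional mean over the `v ∈ T` with `q v` conjugate to `g` -/
noncomputable def Ec (g : Q) : ℂ :=
  (∑ v ∈ T, F v * (kap g (q v) : ℂ)) / (∑ v ∈ T, (kap g (q v) : ℂ))

theorem Ec_conj (a t : Q) : Ec T q F (t * a * t⁻¹) = Ec T q F a := by
  unfold Ec
  have h : ∀ b, kap (t * a * t⁻¹) b = kap a b := fun b =>
    kap_congr (isConj_iff.2 ⟨t⁻¹, by group⟩) b
  simp only [h]

theorem Ec_mul (g : Q) : Ec T q F g * (∑ v ∈ T, (kap g (q v) : ℂ)) =
    ∑ v ∈ T, F v * (kap g (q v) : ℂ) := by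
  unfold Ec
  by_cases h : (∑ v ∈ T, (kap g (q v) : ℂ)) = 0
  · rw [h, mul_zero]
    have h1 : ∑ v ∈ T, kap g (q v) = 0 := by
      have : ((∑ v ∈ T, kap g (q v) : ℝ) : ℂ) = 0 := by
        rw [Complex.ofReal_sum]; exact h
      exact_mod_cast this
    have h2 := (Finset.sum_eq_zero_iff_of_nonneg fun v _ => kap_nonneg g (q v)).1 h1
    refine (Finset.sum_eq_zero fun v hv => ?_).symm
    rw [h2 v hv]
    simp
  · rw [div_mul_cancel₀ _ h]

/-- the conditional mean is a projection -/
theorem proj (H : Q → ℂ) (hH : ∀ a t, H (t * a * t⁻¹) = H a) :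
    ∑ v ∈ T, F v * H (q v) = ∑ v ∈ T, Ec T q F (q v) * H (q v) := by
  have h1 : ∀ (G : V → ℂ), ∑ v ∈ T, G v * H (q v) =
      ∑ g, H g * ∑ v ∈ T, G v * (kap g (q v) : ℂ) := by
    intro G
    simp only [Finset.mul_sum]
    rw [Finset.sum_comm]
    refine Finset.sum_congr rfl fun v _ => ?_
    rw [← expand H hH (q v), Finset.mul_sum]
    exact Finset.sum_congr rfl fun g _ => by ring
  have hEH : ∀ a t, Ec T q F (t * a * t⁻¹) * H (t * a * t⁻¹) = Ec T q F a * H a := fun a t => by
    rw [hH, Ec_conj]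
  rw [h1]
  have h2 : ∑ v ∈ T, Ec T q F (q v) * H (q v) =
      ∑ g, (Ec T q F g * H g) * ∑ v ∈ T, (kap g (q v) : ℂ) := by
    simp only [Finset.mul_sum]
    rw [Finset.sum_comm]
    refine Finset.sum_congr rfl fun v _ => ?_
    exact (expand (fun g => Ec T q F g * H g) hEH (q v)).symm
  rw [h2]
  refine Finset.sum_congr rfl fun g _ => ?_
  rw [← Ec_mul]
  ring

theorem Ec_norm {B : ℝ} (hB : ∀ v, ‖F v‖ ≤ B) (hB0 : 0 ≤ B) (g : Q) : ‖Ec T q F g‖ ≤ B := by
  unfold Ec
  have h1 : ‖∑ v ∈ T, F v * (kap g (q v) : ℂ)‖ ≤ B * ∑ v ∈ T, kap g (q v) := by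
    rw [Finset.mul_sum]
    refine (norm_sum_le _ _).trans (Finset.sum_le_sum fun v _ => ?_)
    rw [norm_mul, Complex.norm_real, Real.norm_of_nonneg (kap_nonneg _ _)]
    exact mul_le_mul_of_nonneg_right (hB v) (kap_nonneg _ _)
  have h2 : ‖∑ v ∈ T, (kap g (q v) : ℂ)‖ = ∑ v ∈ T, kap g (q v) := by
    rw [← Complex.ofReal_sum, Complex.norm_real,
      Real.norm_of_nonneg (Finset.sum_nonneg fun v _ => kap_nonneg _ _)]
  rw [norm_div, h2]
  exact div_le_of_le_mul₀ (Finset.sum_nonneg fun v _ => kap_nonneg _ _) hB0 h1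

theorem mn_norm {B : ℝ} (hB : ∀ v, ‖F v‖ ≤ B) (hB0 : 0 ≤ B) : ‖mn T F‖ ≤ B := by
  unfold mn
  rw [norm_div, Complex.norm_natCast]
  refine div_le_of_le_mul₀ (Nat.cast_nonneg _) hB0 ?_
  refine (norm_sum_le _ _).trans ((Finset.sum_le_sum fun v _ => hB v).trans ?_)
  rw [Finset.sum_const, nsmul_eq_mul, mul_comm]

end mean

section core

variable {V I : Type} [Fintype I]

theorem bdd_zero {c e : ℕ → ℂ} {A : ℝ} (hc : ∀ N, ‖c N‖ ≤ A) (he : Tendsto e atTop (𝓝 0)) :
    Tendsto (fun N => c N * e N) atTop (𝓝 0) := by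
  rw [tendsto_zero_iff_norm_tendsto_zero] at he ⊢
  refine squeeze_zero (fun N => norm_nonneg _) (fun N => ?_) (by simpa using he.const_mul A)
  rw [norm_mul]
  exact mul_le_mul_of_nonneg_right (hc N) (norm_nonneg _)

theorem core (T : ℕ → Finset V) (hT : ∀ᶠ N in atTop, (T N).card ≠ 0) (Q : I → Type)
    [∀ i, Group (Q i)] [∀ i, Fintype (Q i)] (q : ∀ i, V → Q i)
    (h1 : ∀ i (g : Q i), Tendsto (fun N => mn (T N) fun v => (kap g (q i v) : ℂ)) atTop
      (𝓝 ((Fintype.card (Q i) : ℂ)⁻¹)))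
    (h2 : ∀ i j, i ≠ j → ∀ (g : Q i) (g' : Q j),
      Tendsto (fun N => mn (T N) fun v => (kap g (q i v) : ℂ) * (kap g' (q j v) : ℂ)) atTop
        (𝓝 ((Fintype.card (Q i) : ℂ)⁻¹ * (Fintype.card (Q j) : ℂ)⁻¹)))
    (F : V → ℂ) (B : ℝ) (hB0 : 0 ≤ B) (hB : ∀ v, ‖F v‖ ≤ B) (ε : ℝ) (hε : 0 < ε) :
    ∀ᶠ N in atTop, ∑ i, (Fintype.card (Q i) : ℝ)⁻¹ *
        ∑ g, ‖Ec (T N) (q i) F g - mn (T N) F‖ ^ 2 ≤
      (∑ v ∈ T N, ‖F v‖ ^ 2) / (T N).card - ‖mn (T N) F‖ ^ 2 + ε := by
  classical
  set h : ∀ i, ℕ → Q i → ℂ := fun i N g => Ec (T N) (q i) F g - mn (T N) F with hh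
  have hcl : ∀ i N a t, h i N (t * a * t⁻¹) = h i N a := fun i N a t => by
    simp only [hh, Ec_conj]
  have hbd : ∀ i N g, ‖h i N g‖ ≤ 2 * B := fun i N g => by
    refine (norm_sub_le _ _).trans ?_
    have := Ec_norm (T N) (q i) F hB hB0 g
    have := mn_norm (T N) F hB hB0
    linarith
  -- the inner products
  set P : ∀ i j, ℕ → ℂ := fun i j N =>
    mn (T N) fun v => h i N (q i v) * (starRingEnd ℂ) (h j N (q j v)) with hP
  -- expansion of mean values of class functions
  have hexp : ∀ (i : I) (N : ℕ) (H : Q i → ℂ), (∀ a t, H (t * a * t⁻¹) = H a) →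
      mn (T N) (fun v => H (q i v)) = ∑ g, H g * mn (T N) fun v => (kap g (q i v) : ℂ) := by
    intro i N H hH
    simp only [mn, ← mul_div_assoc, ← Finset.sum_div, Finset.mul_sum]
    rw [Finset.sum_comm]
    congr 1
    exact Finset.sum_congr rfl fun v _ => (expand H hH (q i v)).symm
  -- mean zero
  have hmz : ∀ i N, (T N).card ≠ 0 → mn (T N) (fun v => h i N (q i v)) = 0 := by
    intro i N hN
    have h3 := proj (T N) (q i) F (fun _ => 1) (fun _ _ => rfl)
    simp only [mul_one] at h3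
    simp only [mn, hh, Finset.sum_sub_distrib, ← h3, Finset.sum_const, nsmul_eq_mul]
    rw [mul_div_cancel₀ _ (by exact_mod_cast hN : ((T N).card : ℂ) ≠ 0), sub_self, zero_div]
  have hsum0 : ∀ i, Tendsto (fun N => (Fintype.card (Q i) : ℂ)⁻¹ * ∑ g, h i N g) atTop (𝓝 0) := by
    intro i
    have h4 : Tendsto (fun N => ∑ g, h i N g * ((Fintype.card (Q i) : ℂ)⁻¹ -
        mn (T N) fun v => (kap g (q i v) : ℂ))) atTop (𝓝 (∑ _g : Q i, (0 : ℂ))) := by
      refine tendsto_finsetSum _ fun g _ => bdd_zero (hbd i · g) ?_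
      have := (h1 i g).const_sub ((Fintype.card (Q i) : ℂ)⁻¹)
      rwa [sub_self] at this
    rw [Finset.sum_const_zero] at h4
    refine h4.congr' ?_
    filter_upwards [hT] with N hN
    have h5 := hexp i N (h i N) (hcl i N)
    rw [hmz i N hN] at h5
    simp only [mul_sub, Finset.sum_sub_distrib]
    rw [← h5, sub_zero, ← Finset.sum_mul, mul_comm]
  -- the inner products for different indices
  have hcross : ∀ i j, i ≠ j → Tendsto (P i j) atTop (𝓝 0) := by
    intro i j hij
    have h4 : ∀ N, P i j N = ∑ g, ∑ g', (h i N g * (starRingEnd ℂ) (h j N g')) *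
        mn (T N) fun v => (kap g (q i v) : ℂ) * (kap g' (q j v) : ℂ) := by
      intro N
      have hcj : ∀ a t, (starRingEnd ℂ) (h j N (t * a * t⁻¹)) = (starRingEnd ℂ) (h j N a) :=
        fun a t => by rw [hcl]
      have h5 : ∀ v, h i N (q i v) * (starRingEnd ℂ) (h j N (q j v)) =
          ∑ g, ∑ g', (h i N g * (starRingEnd ℂ) (h j N g')) *
            ((kap g (q i v) : ℂ) * (kap g' (q j v) : ℂ)) := by
        intro v
        rw [← expand (h i N) (hcl i N) (q i v),
          ← expand (fun a => (starRingEnd ℂ) (h j N a)) hcj (q j v), Finset.sum_mul_sum]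
        refine Finset.sum_congr rfl fun g _ => Finset.sum_congr rfl fun g' _ => ?_
        ring
      simp only [hP, mn, h5]
      rw [Finset.sum_comm, Finset.sum_div]
      refine Finset.sum_congr rfl fun g _ => ?_
      rw [Finset.sum_comm, Finset.sum_div]
      refine Finset.sum_congr rfl fun g' _ => ?_
      rw [← Finset.mul_sum, mul_div_assoc]
    have h5 : Tendsto (fun N => ∑ g, ∑ g', (h i N g * (starRingEnd ℂ) (h j N g')) *
        ((mn (T N) fun v => (kap g (q i v) : ℂ) * (kap g' (q j v) : ℂ)) -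
          (Fintype.card (Q i) : ℂ)⁻¹ * (Fintype.card (Q j) : ℂ)⁻¹)) atTop
        (𝓝 (∑ _g : Q i, ∑ _g' : Q j, (0 : ℂ))) := by
      refine tendsto_finsetSum _ fun g _ => tendsto_finsetSum _ fun g' _ => ?_
      refine bdd_zero (A := 2 * B * (2 * B)) (fun N => ?_) ?_
      · rw [norm_mul, RCLike.norm_conj]
        exact mul_le_mul (hbd i N g) (hbd j N g') (norm_nonneg _) (by positivity)
      · have := (h2 i j hij g g').sub_const
          ((Fintype.card (Q i) : ℂ)⁻¹ * (Fintype.card (Q j) : ℂ)⁻¹)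
        rwa [sub_self] at this
    have h6 : Tendsto (fun N => ((Fintype.card (Q i) : ℂ)⁻¹ * ∑ g, h i N g) *
        (starRingEnd ℂ) ((Fintype.card (Q j) : ℂ)⁻¹ * ∑ g', h j N g')) atTop (𝓝 0) := by
      have := (hsum0 i).mul ((Complex.continuous_conj.tendsto _).comp (hsum0 j))
      simpa using this
    have h7 := h5.add h6
    simp only [Finset.sum_const_zero, add_zero] at h7
    refine h7.congr fun N => ?_
    rw [h4]
    simp only [mul_sub, Finset.sum_sub_distrib]
    have h8 : ∑ g, ∑ g', h i N g * (starRingEnd ℂ) (h j N g') *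
        ((Fintype.card (Q i) : ℂ)⁻¹ * (Fintype.card (Q j) : ℂ)⁻¹) =
        ((Fintype.card (Q i) : ℂ)⁻¹ * ∑ g, h i N g) *
        (starRingEnd ℂ) ((Fintype.card (Q j) : ℂ)⁻¹ * ∑ g', h j N g') := by
      rw [map_mul, map_inv₀, Complex.conj_natCast, map_sum]
      rw [mul_mul_mul_comm, Finset.sum_mul_sum, Finset.mul_sum]
      refine Finset.sum_congr rfl fun g _ => ?_
      rw [Finset.mul_sum]
      exact Finset.sum_congr rfl fun g' _ => by ring
    rw [h8]
    ring
  -- the diagonal ones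
  have hdiag : ∀ i, Tendsto (fun N => P i i N - (((Fintype.card (Q i) : ℝ)⁻¹ *
      ∑ g, ‖h i N g‖ ^ 2 : ℝ) : ℂ)) atTop (𝓝 0) := by
    intro i
    have h4 : ∀ N, P i i N = ∑ g, (h i N g * (starRingEnd ℂ) (h i N g)) *
        mn (T N) fun v => (kap g (q i v) : ℂ) := by
      intro N
      exact hexp i N (fun a => h i N a * (starRingEnd ℂ) (h i N a)) (fun a t => by rw [hcl])
    have h5 : Tendsto (fun N => ∑ g, (h i N g * (starRingEnd ℂ) (h i N g)) *
        ((mn (T N) fun v => (kap g (q i v) : ℂ)) - (Fintype.card (Q i) : ℂ)⁻¹)) atTop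
        (𝓝 (∑ _g : Q i, (0 : ℂ))) := by
      refine tendsto_finsetSum _ fun g _ => ?_
      refine bdd_zero (A := 2 * B * (2 * B)) (fun N => ?_) ?_
      · rw [norm_mul, RCLike.norm_conj]
        exact mul_le_mul (hbd i N g) (hbd i N g) (norm_nonneg _) (by positivity)
      · have := (h1 i g).sub_const ((Fintype.card (Q i) : ℂ)⁻¹)
        rwa [sub_self] at this
    simp only [Finset.sum_const_zero] at h5
    refine h5.congr fun N => ?_
    rw [h4]
    simp only [mul_sub, Finset.sum_sub_distrib]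
    congr 1
    push_cast
    rw [Finset.mul_sum]
    refine Finset.sum_congr rfl fun g _ => ?_
    rw [Complex.mul_conj, Complex.normSq_eq_norm_sq]
    push_cast
    ring
  -- the error term
  set err : ℕ → ℝ := fun N => ∑ i, ∑ j, (if i = j then
    ‖P i i N - (((Fintype.card (Q i) : ℝ)⁻¹ * ∑ g, ‖h i N g‖ ^ 2 : ℝ) : ℂ)‖ else ‖P i j N‖) with herr
  have herr0 : Tendsto err atTop (𝓝 0) := by
    have : Tendsto err atTop (𝓝 (∑ _i : I, ∑ _j : I, (0 : ℝ))) := by
      refine tendsto_finsetSum _ fun i _ => tendsto_finsetSum _ fun j _ => ?_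
      by_cases hij : i = j
      · subst hij
        simp only [if_true]
        exact tendsto_zero_iff_norm_tendsto_zero.1 (hdiag i)
      · simp only [if_neg hij]
        exact tendsto_zero_iff_norm_tendsto_zero.1 (hcross i j hij)
    simpa using this
  filter_upwards [hT, herr0.eventually_le_const hε] with N hN hNε
  have hn : (0 : ℝ) < (T N).card := by exact_mod_cast Nat.pos_of_ne_zero hN
  have hnc : ((T N).card : ℂ) ≠ 0 := by exact_mod_cast hN
  set m : ℂ := mn (T N) F with hm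
  set A : ℝ := ∑ i, (Fintype.card (Q i) : ℝ)⁻¹ * ∑ g, ‖h i N g‖ ^ 2 with hA
  -- `∑ |F - m|² = ∑ |F|² - n |m|²`
  have hmF : ∑ v ∈ T N, F v = (T N).card * m := by
    rw [hm, mn, mul_div_cancel₀ _ hnc]
  have hvar : (∑ v ∈ T N, ‖F v - m‖ ^ 2) / (T N).card =
      (∑ v ∈ T N, ‖F v‖ ^ 2) / (T N).card - ‖m‖ ^ 2 := by
    have h3 : ∀ v, ‖F v - m‖ ^ 2 = ‖F v‖ ^ 2 + ‖m‖ ^ 2 - 2 * (F v * (starRingEnd ℂ) m).re := by
      intro v
      rw [← Complex.normSq_eq_norm_sq, ← Complex.normSq_eq_norm_sq, ← Complex.normSq_eq_norm_sq,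
        Complex.normSq_sub]
    simp only [h3, Finset.sum_sub_distrib, Finset.sum_add_distrib, Finset.sum_const, nsmul_eq_mul]
    rw [← Finset.mul_sum, ← Complex.re_sum, ← Finset.sum_mul, hmF, mul_assoc, Complex.mul_conj,
      Complex.normSq_eq_norm_sq, ← Complex.ofReal_natCast, ← Complex.ofReal_mul, Complex.ofReal_re]
    field_simp
    ring
  -- `⟨F - m, h i⟩ = ⟨h i, h i⟩`
  have hin : ∀ i, ∑ v ∈ T N, (F v - m) * (starRingEnd ℂ) (h i N (q i v)) =
      (T N).card * P i i N := by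
    intro i
    have h3 := proj (T N) (q i) F (fun a => (starRingEnd ℂ) (h i N a)) (fun a t => by rw [hcl])
    have h4 : (T N).card * P i i N = ∑ v ∈ T N, h i N (q i v) *
        (starRingEnd ℂ) (h i N (q i v)) := by
      simp only [hP, mn]
      rw [mul_div_cancel₀ _ hnc]
    rw [h4]
    simp only [sub_mul, Finset.sum_sub_distrib]
    rw [h3, ← Finset.sum_sub_distrib]
    exact Finset.sum_congr rfl fun v _ => by rw [← sub_mul]
  -- expansion of the square
  have hsq : 0 ≤ (∑ v ∈ T N, ‖(F v - m) - ∑ i, h i N (q i v)‖ ^ 2) / (T N).card := by positivity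
  have hsq2 : (∑ v ∈ T N, ‖(F v - m) - ∑ i, h i N (q i v)‖ ^ 2) / (T N).card =
      (∑ v ∈ T N, ‖F v - m‖ ^ 2) / (T N).card - 2 * ∑ i, (P i i N).re +
        ∑ i, ∑ j, (P i j N).re := by
    have h3 : ∀ v, ‖(F v - m) - ∑ i, h i N (q i v)‖ ^ 2 = ‖F v - m‖ ^ 2 -
        2 * ∑ i, ((F v - m) * (starRingEnd ℂ) (h i N (q i v))).re +
        ∑ i, ∑ j, (h i N (q i v) * (starRingEnd ℂ) (h j N (q j v))).re := by
      intro v
      rw [← Complex.normSq_eq_norm_sq, Complex.normSq_sub, Complex.normSq_eq_norm_sq]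
      have e1 : Complex.normSq (∑ i, h i N (q i v)) =
          ∑ i, ∑ j, (h i N (q i v) * (starRingEnd ℂ) (h j N (q j v))).re := by
        have : ((Complex.normSq (∑ i, h i N (q i v)) : ℝ) : ℂ) =
            ∑ i, ∑ j, h i N (q i v) * (starRingEnd ℂ) (h j N (q j v)) := by
          rw [← Complex.mul_conj, map_sum, Finset.sum_mul_sum]
        have h6 := congrArg Complex.re this
        rw [Complex.ofReal_re] at h6
        rw [h6]
        simp only [Complex.re_sum]
      have e2 : ((F v - m) * (starRingEnd ℂ) (∑ i, h i N (q i v))).re =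
          ∑ i, ((F v - m) * (starRingEnd ℂ) (h i N (q i v))).re := by
        rw [map_sum, Finset.mul_sum, Complex.re_sum]
      rw [e1, e2]
      ring
    simp only [h3, Finset.sum_sub_distrib, Finset.sum_add_distrib]
    rw [add_div, sub_div]
    congr 1
    · congr 1
      rw [← Finset.mul_sum, mul_div_assoc]
      congr 1
      rw [Finset.sum_comm, Finset.sum_div]
      refine Finset.sum_congr rfl fun i _ => ?_
      rw [← Complex.re_sum, hin i, ← Complex.ofReal_natCast, Complex.re_ofReal_mul,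
        mul_div_cancel_left₀ _ hn.ne']
    · rw [Finset.sum_comm, Finset.sum_div]
      refine Finset.sum_congr rfl fun i _ => ?_
      rw [Finset.sum_comm, Finset.sum_div]
      refine Finset.sum_congr rfl fun j _ => ?_
      simp only [hP, mn]
      rw [← Complex.re_sum, ← Complex.ofReal_natCast, Complex.div_ofReal_re]
  -- the final estimate
  have hPsum : ∑ i, ∑ j, (P i j N).re - 2 * ∑ i, (P i i N).re ≤ -A + err N := by
    have h3 : ∑ i, ∑ j, (P i j N).re - 2 * ∑ i, (P i i N).re =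
        ∑ i, ((∑ j, (P i j N).re) - 2 * (P i i N).re) := by
      rw [Finset.sum_sub_distrib, ← Finset.mul_sum]
    rw [h3, hA, herr, ← Finset.sum_neg_distrib, ← Finset.sum_add_distrib]
    refine Finset.sum_le_sum fun i _ => ?_
    set a : ℝ := (Fintype.card (Q i) : ℝ)⁻¹ * ∑ g, ‖h i N g‖ ^ 2 with ha
    rw [Finset.sum_eq_add_sum_sdiff_singleton_of_mem (Finset.mem_univ i) fun j => (P i j N).re,
      Finset.sum_eq_add_sum_sdiff_singleton_of_mem (Finset.mem_univ i)
        fun j => (if i = j then ‖P i i N - (a : ℂ)‖ else ‖P i j N‖)]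
    rw [if_pos rfl]
    have h4 : ∑ j ∈ Finset.univ \ {i}, (P i j N).re ≤
        ∑ j ∈ Finset.univ \ {i}, (if i = j then ‖P i i N - (a : ℂ)‖ else ‖P i j N‖) := by
      refine Finset.sum_le_sum fun j hj => ?_
      rw [if_neg]
      · exact Complex.re_le_norm _
      · rintro rfl
        simp at hj
    have h5 : -(P i i N).re + a ≤ ‖P i i N - (a : ℂ)‖ := by
      have h6 := Complex.abs_re_le_norm (P i i N - (a : ℂ))
      rw [Complex.sub_re, Complex.ofReal_re] at h6
      have := neg_abs_le ((P i i N).re - a)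
      linarith
    linarith
  rw [hsq2, hvar] at hsq
  linarith

end core

end Pool.Agent.Run7.h271.CC
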