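import Pool.Agent.K4H40.ST.AuxM

/-! The cyclotomic extensions of a number field are almost all disjoint and of full degree. -/

set_option autoImplicit false
set_option linter.unusedSectionVars false
set_option linter.style.haveILetI false

namespace Pool.Agent.Run7.h271.CC

open Pool.Agent.K4H40.ST
open NumberField IsDedekindDomain Polynomial

variable {K : Type} [Field K] [NumberField K]

/-- the elements of the Galois group fixing the `m`-th roots of unity -/
def Hm (K : Type) [Field K] (m : ℕ) : Subgroup Gal(Kbar K/K) where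
  carrier := {τ | ∀ ζ : Kbar K, ζ ^ m = 1 → τ ζ = ζ}
  one_mem' := fun _ _ => rfl
  mul_mem' := fun {a b} ha hb ζ hζ => by
    rw [AlgEquiv.mul_apply, hb ζ hζ, ha ζ hζ]
  inv_mem' := fun {a} ha ζ hζ => by
    have h1 := ha ζ hζ
    have h2 : a⁻¹ (a ζ) = ζ := by
      rw [← AlgEquiv.mul_apply, inv_mul_cancel]; rfl
    rw [h1] at h2
    exact h2

theorem mem_Hm {m : ℕ} {τ : Gal(Kbar K/K)} : τ ∈ Hm K m ↔ ∀ ζ : Kbar K, ζ ^ m = 1 → τ ζ = ζ :=
  Iff.rfl

instance Hm_normal (m : ℕ) : (Hm K m).Normal where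
  conj_mem := by
    intro τ hτ g ζ hζ
    have h1 : (g⁻¹ ζ) ^ m = 1 := by rw [← map_pow, hζ, map_one]
    have h2 := hτ _ h1
    rw [AlgEquiv.mul_apply, AlgEquiv.mul_apply, h2, ← AlgEquiv.mul_apply, mul_inv_cancel]
    rfl

theorem mem_Hm_iff {m : ℕ} (hm : m ≠ 0) {ζ : Kbar K} (hζ : IsPrimitiveRoot ζ m)
    {τ : Gal(Kbar K/K)} : τ ∈ Hm K m ↔ τ ζ = ζ := by
  constructor
  · intro h
    exact h ζ hζ.pow_eq_one
  · intro h ξ hξ
    haveI : NeZero m := ⟨hm⟩
    obtain ⟨i, -, rfl⟩ := hζ.eq_pow_of_pow_eq_one hξ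
    rw [map_pow, h]

theorem exists_prim (K : Type) [Field K] [NumberField K] {m : ℕ} (hm : m ≠ 0) :
    ∃ ζ : Kbar K, IsPrimitiveRoot ζ m := by
  have : NeZero (m : Kbar K) := ⟨by exact_mod_cast hm⟩
  exact HasEnoughRootsOfUnity.exists_primitiveRoot (Kbar K) m

theorem Hm_open {m : ℕ} (hm : m ≠ 0) : IsOpen ((Hm K m : Subgroup _) : Set Gal(Kbar K/K)) := by
  obtain ⟨ζ, hζ⟩ := exists_prim K hm
  let M : IntermediateField K (Kbar K) := IntermediateField.adjoin K {ζ}
  have hint : IsIntegral K ζ := Algebra.IsIntegral.isIntegral ζ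
  have hfd : FiniteDimensional K M := IntermediateField.adjoin.finiteDimensional hint
  refine Subgroup.isOpen_mono (H₁ := M.fixingSubgroup) ?_ (IntermediateField.fixingSubgroup_isOpen M)
  intro σ hσ
  rw [IntermediateField.mem_fixingSubgroup_iff] at hσ
  exact (mem_Hm_iff hm hζ).2 (hσ ζ (IntermediateField.mem_adjoin_simple_self K ζ))

theorem Hm_finite {m : ℕ} (hm : m ≠ 0) : Finite (Gal(Kbar K/K) ⧸ Hm K m) :=
  Subgroup.quotient_finite_of_isOpen _ (Hm_open hm)

theorem Hm_index_ne {m : ℕ} (hm : m ≠ 0) : (Hm K m).index ≠ 0 := by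
  haveI := Hm_finite (K := K) hm
  exact Subgroup.index_ne_zero_of_finite

/-- the index is large -/
theorem totient_le {m : ℕ} (hm : m ≠ 0) :
    m.totient ≤ Module.finrank ℚ K * (Hm K m).index := by
  classical
  obtain ⟨ζ, hζ⟩ := exists_prim K hm
  have hl0 : 0 < m := Nat.pos_of_ne_zero hm
  have hint : IsIntegral K ζ := Algebra.IsIntegral.isIntegral ζ
  haveI := Hm_finite (K := K) hm
  -- the degree over `K`
  have h1 : (minpoly K ζ).natDegree ≤ (Hm K m).index := by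
    have hsep : (minpoly K ζ).Separable := Algebra.IsSeparable.isSeparable K ζ
    have hsp : ((minpoly K ζ).map (algebraMap K (Kbar K))).Splits := IsAlgClosed.splits _
    rw [← card_rootSet_eq_natDegree (K := Kbar K) hsep hsp, ← Nat.card_eq_fintype_card]
    have hex : ∀ y : (minpoly K ζ).rootSet (Kbar K), ∃ σ : Gal(Kbar K/K), σ ζ = y := by
      intro y
      have h2 : IsConjRoot K ζ (y : Kbar K) := (isConjRoot_iff_mem_minpoly_rootSet hint).2 y.2
      exact (isConjRoot_iff_exists_algEquiv).1 h2.symm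
    choose σ hσ using hex
    refine Nat.card_le_card_of_injective
      (fun y => (QuotientGroup.mk (σ y) : Gal(Kbar K/K) ⧸ Hm K m)) ?_
    intro y y' h
    have h2 : (σ y)⁻¹ * σ y' ∈ Hm K m := QuotientGroup.eq.1 h
    have h3 := (mem_Hm_iff hm hζ).1 h2
    apply Subtype.ext
    rw [← hσ y, ← hσ y']
    have h4 : σ y (((σ y)⁻¹ * σ y') ζ) = σ y' ζ := by
      rw [← AlgEquiv.mul_apply, mul_inv_cancel_left]
    rw [h3] at h4
    exact h4
  -- the degree over `ℚ`
  let M : IntermediateField K (Kbar K) := IntermediateField.adjoin K {ζ}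
  have hM : Module.finrank K M = (minpoly K ζ).natDegree := IntermediateField.adjoin.finrank hint
  have hfd : FiniteDimensional K M := IntermediateField.adjoin.finiteDimensional hint
  have hfd' : FiniteDimensional ℚ M := Module.Finite.trans K M
  have h3 : Module.finrank ℚ K * Module.finrank K M = Module.finrank ℚ M :=
    Module.finrank_mul_finrank ℚ K M
  let x : M := ⟨ζ, IntermediateField.mem_adjoin_simple_self K ζ⟩
  have hx : IsPrimitiveRoot x m := by
    refine IsPrimitiveRoot.of_map_of_injective (f := algebraMap M (Kbar K)) ?_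
      (algebraMap M (Kbar K)).injective
    exact hζ
  have h4 : (minpoly ℚ x).natDegree = m.totient := by
    rw [← cyclotomic_eq_minpoly_rat hx hl0, natDegree_cyclotomic]
  have h5 : (minpoly ℚ x).natDegree ≤ Module.finrank ℚ M := minpoly.natDegree_le x
  calc m.totient = (minpoly ℚ x).natDegree := h4.symm
    _ ≤ Module.finrank ℚ M := h5
    _ = Module.finrank ℚ K * (minpoly K ζ).natDegree := by rw [← h3, hM]
    _ ≤ _ := Nat.mul_le_mul_left _ h1

theorem Hm_mul {m n : ℕ} (hmn : Nat.Coprime m n) : Hm K m ⊓ Hm K n ≤ Hm K (m * n) := by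
  intro τ hτ ζ hζ
  obtain ⟨h1, h2⟩ := hτ
  by_cases hz : ζ = 0
  · rw [hz, map_zero]
  have h3 : τ (ζ ^ m) = ζ ^ m := h2 _ (by rw [← pow_mul, hζ])
  have h4 : τ (ζ ^ n) = ζ ^ n := h1 _ (by rw [← pow_mul, mul_comm, hζ])
  have h5 := Nat.gcd_eq_gcd_ab m n
  rw [Nat.Coprime.gcd_eq_one hmn, Nat.cast_one] at h5
  have h6 : ζ = (ζ ^ m) ^ (Nat.gcdA m n) * (ζ ^ n) ^ (Nat.gcdB m n) := by
    rw [← zpow_natCast, ← zpow_natCast, ← zpow_mul, ← zpow_mul, ← zpow_add₀ hz, ← h5, zpow_one]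
  have h7 : τ ((ζ ^ m) ^ (Nat.gcdA m n) * (ζ ^ n) ^ (Nat.gcdB m n)) =
      (ζ ^ m) ^ (Nat.gcdA m n) * (ζ ^ n) ^ (Nat.gcdB m n) := by
    rw [map_mul, map_zpow₀, map_zpow₀, h3, h4]
  rw [← h6] at h7
  exact h7

theorem chi_one' {l : ℕ} [Fact l.Prime]
    {ζ : Kbar K} (hζ : IsPrimitiveRoot ζ l) {τ : Gal(Kbar K/K)} (hτ : τ ζ = ζ) :
    hζ.autToPow K τ = 1 := by
  have hl : l.Prime := Fact.out
  apply Units.ext
  have h1 := hζ.autToPow_spec K τ
  rw [hτ] at h1
  have h2 : ((hζ.autToPow K τ : (ZMod l)ˣ) : ZMod l).val = 1 :=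
    hζ.pow_inj (ZMod.val_lt _) hl.one_lt (by rw [h1, pow_one])
  rw [Units.val_one, ← ZMod.natCast_zmod_val ((hζ.autToPow K τ : (ZMod l)ˣ) : ZMod l), h2,
    Nat.cast_one]

theorem index_inf {Γ : Type} [Group Γ] (H H' : Subgroup Γ) [H.Normal] [H'.Normal] :
    (H ⊓ H').index * (H ⊔ H').index = H.index * H'.index := by
  have h1 : (H ⊓ H').relIndex H * H.index = (H ⊓ H').index := Subgroup.relIndex_mul_index inf_le_left
  have h2 : H'.relIndex (H ⊔ H') * (H ⊔ H').index = H'.index :=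
    Subgroup.relIndex_mul_index le_sup_right
  have h3 : (H ⊓ H').relIndex H = H'.relIndex (H ⊔ H') := by
    rw [Subgroup.inf_relIndex_left, Subgroup.relIndex_sup_right]
  rw [← h1, ← h2, h3]
  ring

/-- the index for a prime -/
theorem index_dvd {p : ℕ} (hp : p.Prime) : (Hm K p).index ∣ p - 1 := by
  haveI : Fact p.Prime := ⟨hp⟩
  obtain ⟨ζ, hζ⟩ := exists_prim K hp.ne_zero
  have h1 : Hm K p = (hζ.autToPow K).ker := by
    ext τ
    rw [mem_Hm_iff hp.ne_zero hζ, MonoidHom.mem_ker]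
    constructor
    · intro h
      apply Units.ext
      have h1 := hζ.autToPow_spec K τ
      rw [h] at h1
      have h2 : ((hζ.autToPow K τ : (ZMod p)ˣ) : ZMod p).val = 1 :=
        hζ.pow_inj (ZMod.val_lt _) hp.one_lt (by rw [h1, pow_one])
      rw [Units.val_one, ← ZMod.natCast_zmod_val ((hζ.autToPow K τ : (ZMod p)ˣ) : ZMod p), h2,
        Nat.cast_one]
    · intro h
      have h1 := hζ.autToPow_spec K τ
      haveI : Fact (1 < p) := ⟨hp.one_lt⟩
      rw [h, Units.val_one, ZMod.val_one, pow_one] at h1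
      exact h1.symm
  rw [h1, Subgroup.index_ker]
  have h2 := Subgroup.card_subgroup_dvd_card (hζ.autToPow K).range
  rwa [Nat.card_eq_fintype_card (α := (ZMod p)ˣ), ZMod.card_units] at h2

/-- almost all primes are independent -/
theorem exists_mod (K : Type) [Field K] [NumberField K] : ∃ m : ℕ, m ≠ 0 ∧
    ∀ p : ℕ, p.Prime → ¬ p ∣ m → (Hm K p).index = p - 1 ∧
      ∀ q : ℕ, q.Prime → ¬ q ∣ m → p ≠ q → Hm K p ⊔ Hm K q = ⊤ := by
  classical
  set P : ℕ → Prop := fun k => ∃ m : ℕ, m ≠ 0 ∧ 2 ^ k * (Hm K m).index ≤ m.totient with hP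
  have hb : ∀ k, P k → k ≤ Module.finrank ℚ K := by
    rintro k ⟨m, hm, h⟩
    have h1 := h.trans (totient_le (K := K) hm)
    have h2 : 2 ^ k ≤ Module.finrank ℚ K :=
      Nat.le_of_mul_le_mul_right h1 (Nat.pos_of_ne_zero (Hm_index_ne hm))
    exact (Nat.lt_two_pow_self).le.trans h2
  have h0 : P 0 := by
    refine ⟨1, one_ne_zero, ?_⟩
    have : Hm K 1 = ⊤ := by
      rw [eq_top_iff]
      intro τ _ ζ hζ
      rw [pow_one] at hζ
      rw [hζ, map_one]
    rw [this, Subgroup.index_top]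
    simp
  set k := Nat.findGreatest P (Module.finrank ℚ K) with hk
  have hPk : P k := Nat.findGreatest_spec (Nat.zero_le _) h0
  have hmax : ¬ P (k + 1) := by
    intro h
    have h1 := Nat.le_findGreatest (hb _ h) h
    omega
  obtain ⟨m, hm, hkm⟩ := hPk
  -- the step
  have step : ∀ n : ℕ, n ≠ 0 → Nat.Coprime m n → ¬ 2 * (Hm K n).index ≤ n.totient := by
    intro n hn hmn h
    apply hmax
    refine ⟨m * n, mul_ne_zero hm hn, ?_⟩
    have h1 : (Hm K (m * n)).index ≤ (Hm K m).index * (Hm K n).index := by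
      refine le_trans ?_ Subgroup.index_inf_le
      haveI := Hm_finite (K := K) (mul_ne_zero hm hn)
      have h2 : (Hm K m ⊓ Hm K n).index ≠ 0 :=
        Subgroup.index_inf_ne_zero (Hm_index_ne hm) (Hm_index_ne hn)
      exact Nat.le_of_dvd (Nat.pos_of_ne_zero h2) (Subgroup.index_dvd_of_le (Hm_mul hmn))
    rw [Nat.totient_mul hmn]
    calc 2 ^ (k + 1) * (Hm K (m * n)).index ≤
        2 ^ (k + 1) * ((Hm K m).index * (Hm K n).index) := Nat.mul_le_mul_left _ h1
      _ = (2 ^ k * (Hm K m).index) * (2 * (Hm K n).index) := by ring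
      _ ≤ _ := Nat.mul_le_mul hkm h
  refine ⟨m, hm, ?_⟩
  intro p hp hpm
  have hcp : Nat.Coprime m p := ((Nat.Prime.coprime_iff_not_dvd hp).2 hpm).symm
  have hidx : (Hm K p).index = p - 1 := by
    by_contra hcon
    obtain ⟨c, hc⟩ := index_dvd (K := K) hp
    have h1 : c ≠ 0 := by
      rintro rfl
      have := hp.two_le
      omega
    have h2 : c ≠ 1 := by
      rintro rfl
      rw [mul_one] at hc
      exact hcon hc.symm
    apply step p hp.ne_zero hcp
    rw [Nat.totient_prime hp, hc, mul_comm]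
    exact Nat.mul_le_mul_left _ (by omega)
  refine ⟨hidx, ?_⟩
  intro q hq hqm hpq
  by_contra hcon
  have hcq : Nat.Coprime m q := ((Nat.Prime.coprime_iff_not_dvd hq).2 hqm).symm
  have hpq' : Nat.Coprime p q := (Nat.coprime_primes hp hq).2 hpq
  apply step (p * q) (mul_ne_zero hp.ne_zero hq.ne_zero) (Nat.Coprime.mul_right hcp hcq)
  have h1 := index_inf (Hm K p) (Hm K q)
  have h2 : (Hm K p ⊔ Hm K q).index ≠ 1 := fun h => hcon (Subgroup.index_eq_one.1 h)
  have h3 : (Hm K p ⊔ Hm K q).index ≠ 0 := by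
    intro h
    rw [h, mul_zero] at h1
    exact mul_ne_zero (Hm_index_ne hp.ne_zero) (Hm_index_ne hq.ne_zero) h1.symm
  have h4 : (Hm K p ⊓ Hm K q).index * 2 ≤ (Hm K p).index * (Hm K q).index := by
    rw [← h1]
    exact Nat.mul_le_mul_left _ (by omega)
  have h5 : (Hm K (p * q)).index ≤ (Hm K p ⊓ Hm K q).index := by
    have h2 : (Hm K p ⊓ Hm K q).index ≠ 0 :=
      Subgroup.index_inf_ne_zero (Hm_index_ne hp.ne_zero) (Hm_index_ne hq.ne_zero)
    exact Nat.le_of_dvd (Nat.pos_of_ne_zero h2) (Subgroup.index_dvd_of_le (Hm_mul hpq'))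
  rw [Nat.totient_mul hpq', Nat.totient_prime hp, Nat.totient_prime hq]
  calc 2 * (Hm K (p * q)).index ≤ (Hm K p ⊓ Hm K q).index * 2 := by omega
    _ ≤ (Hm K p).index * (Hm K q).index := h4
    _ ≤ _ := Nat.mul_le_mul (Nat.le_of_dvd (by have := hp.two_le; omega) (index_dvd hp))
      (Nat.le_of_dvd (by have := hq.two_le; omega) (index_dvd hq))

/-- the value of the cyclotomic character at a Frobenius element -/
theorem chi_frob {p : ℕ} [Fact p.Prime] {ζ : Kbar K} (hζ : IsPrimitiveRoot ζ p)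
    (v : HeightOneSpectrum (𝓞 K)) (hv : (p : 𝓞 K) ∉ v.asIdeal) {τ : Gal(Kbar K/K)}
    (hτ : IsFrob K (Kbar K) v τ) :
    ((hζ.autToPow K τ : (ZMod p)ˣ) : ZMod p) = (Ideal.absNorm v.asIdeal : ZMod p) := by
  obtain ⟨Q, hQ, hQv, hfr⟩ := hτ
  have hp : p.Prime := Fact.out
  let z0 : 𝓞 (Kbar K) := ⟨ζ, hζ.isIntegral hp.pos⟩
  have hz0 : z0 ^ p = 1 := by
    apply RingOfIntegers.ext
    exact hζ.pow_eq_one
  set a : ℕ := ((hζ.autToPow K τ : (ZMod p)ˣ) : ZMod p).val with ha
  set n : ℕ := Ideal.absNorm v.asIdeal with hn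
  have hpQ : (p : 𝓞 (Kbar K)) ∉ Q := by
    intro h
    apply hv
    rw [← hQv, Ideal.mem_comap, map_natCast]
    exact h
  have hc : τ • z0 = z0 ^ a := by
    apply RingOfIntegers.ext
    exact (hζ.autToPow_spec K τ).symm
  have h1 := hfr z0
  rw [hc] at h1
  -- `z0 ^ a = z0 ^ n`
  have h2 : z0 ^ a = z0 ^ n := by
    by_contra hne
    set y : 𝓞 (Kbar K) := z0 ^ a * z0 ^ ((p - 1) * n) with hy
    have hyn : z0 ^ n * z0 ^ ((p - 1) * n) = 1 := by
      rw [← pow_add]
      have : n + (p - 1) * n = p * n := by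
        have := hp.one_lt
        obtain ⟨b, rfl⟩ : ∃ b, p = b + 1 := ⟨p - 1, by omega⟩
        simp only [Nat.add_sub_cancel]
        ring
      rw [this, pow_mul, hz0, one_pow]
    have hy1 : y ≠ 1 := by
      intro h
      apply hne
      have h3 : (z0 ^ a - z0 ^ n) * z0 ^ ((p - 1) * n) = 0 := by
        rw [sub_mul, ← hy, h, hyn, sub_self]
      rcases mul_eq_zero.1 h3 with h4 | h4
      · exact sub_eq_zero.1 h4
      · rw [h4, mul_zero] at hyn
        exact absurd hyn zero_ne_one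
    have hyp : y ^ p = 1 := by
      rw [hy, mul_pow, ← pow_mul, ← pow_mul, mul_comm a, mul_comm ((p - 1) * n), pow_mul, pow_mul,
        hz0, one_pow, one_pow, one_mul]
    refine Aux.sub_one_notMem hyp hy1 hpQ ?_
    have h4 : y - 1 = (z0 ^ a - z0 ^ n) * z0 ^ ((p - 1) * n) := by
      rw [sub_mul, ← hy, hyn]
    rw [h4]
    exact Q.mul_mem_right _ h1
  have h3 : ζ ^ a = ζ ^ n := congrArg (fun t : 𝓞 (Kbar K) => (t : Kbar K)) h2
  have h4 : a ≡ n [MOD p] := by
    have := (hζ.isOfFinOrder hp.ne_zero).pow_eq_pow_iff_modEq.1 h3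
    rwa [← hζ.eq_orderOf] at this
  have h5 : (a : ZMod p) = (n : ZMod p) := (ZMod.natCast_eq_natCast_iff _ _ _).2 h4
  rw [← h5, ha, ZMod.natCast_zmod_val]

end Pool.Agent.Run7.h271.CC
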