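import Pool.Agent.Run7.h271.CC.Gal
import Pool.Agent.Run7.h271.CC.Cyc

/-! Conditional means on Frobenius classes and on residue classes. -/

set_option autoImplicit false
set_option linter.style.haveILetI false

namespace Pool.Agent.Run7.h271.CC

open Pool.Agent.K4H40.ST
open NumberField IsDedekindDomain Filter Topology MeasureTheory
open Pool.Agent.W540.BE (upto mem_upto cheb_mean)

variable {K : Type} [Field K] [NumberField K]

theorem wt_eq {Q : Type} [Group Q] [Fintype Q] (g : Q) :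
    wt g = (Nat.card {h : Q // _root_.IsConj g h} : ℝ) / (Nat.card Q : ℝ) := by
  classical
  unfold wt
  rw [Nat.card_eq_fintype_card, Nat.card_eq_fintype_card, Fintype.card_subtype]

/-- the primes whose Frobenius class in the quotient by `U` is the class of `g` -/
def frobClass (σ : HeightOneSpectrum (𝓞 K) → Gal(Kbar K/K)) (U : Subgroup Gal(Kbar K/K))
    [U.Normal] (g : Gal(Kbar K/K) ⧸ U) : Set (HeightOneSpectrum (𝓞 K)) :=
  {v | _root_.IsConj g (QuotientGroup.mk (σ v) : Gal(Kbar K/K) ⧸ U)}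

/-- The mean, over the elements `g` of the Galois group `Gal(Kbar K/K) ⧸ U`, of the squares of the
differences between the mean value of `φ` over the primes with Frobenius class `g` and norm at most
`N`, and the mean value of `φ` over all primes of norm at most `N`. -/
noncomputable def dev (σ : HeightOneSpectrum (𝓞 K) → Gal(Kbar K/K)) (U : Subgroup Gal(Kbar K/K))
    [U.Normal] (φ : HeightOneSpectrum (𝓞 K) → ℂ) (N : ℕ) : ℝ :=
  (Nat.card (Gal(Kbar K/K) ⧸ U) : ℝ)⁻¹ *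
    ∑ᶠ g : Gal(Kbar K/K) ⧸ U, ‖avgOn K (frobClass σ U g) φ N - avg K φ N‖ ^ 2

/-- The mean, over the invertible residue classes `a` modulo `p`, of the squares of the differences
between the mean value of `φ` over the primes with norm at most `N` and congruent to `a`, and the mean
value of `φ` over all primes of norm at most `N`. -/
noncomputable def devMod (K : Type) [Field K] [NumberField K] (p : ℕ)
    (φ : HeightOneSpectrum (𝓞 K) → ℂ) (N : ℕ) : ℝ :=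
  (Nat.card (ZMod p)ˣ : ℝ)⁻¹ *
    ∑ᶠ a : (ZMod p)ˣ, ‖avgOn K {v | ((Ideal.absNorm v.asIdeal : ℕ) : ZMod p) = (a : ZMod p)} φ N -
      avg K φ N‖ ^ 2

theorem Ec_frob (σ : HeightOneSpectrum (𝓞 K) → Gal(Kbar K/K)) (U : Subgroup Gal(Kbar K/K))
    [U.Normal] [Fintype (Gal(Kbar K/K) ⧸ U)] (φ : HeightOneSpectrum (𝓞 K) → ℂ) (N : ℕ)
    (g : Gal(Kbar K/K) ⧸ U) :
    Ec (upto K N) (fun v => cl U (σ v)) φ g = avgOn K (frobClass σ U g) φ N := by
  classical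
  rw [avgOn_eq]
  exact Ec_eq' (upto K N) (fun v => cl U (σ v)) φ g (frobClass σ U g) fun v => Iff.rfl

theorem dev_eq (σ : HeightOneSpectrum (𝓞 K) → Gal(Kbar K/K)) (U : Subgroup Gal(Kbar K/K))
    [U.Normal] [Fintype (Gal(Kbar K/K) ⧸ U)] (φ : HeightOneSpectrum (𝓞 K) → ℂ) (N : ℕ) :
    dev σ U φ N = (Fintype.card (Gal(Kbar K/K) ⧸ U) : ℝ)⁻¹ *
        ∑ g, ‖Ec (upto K N) (fun v => cl U (σ v)) φ g - mn (upto K N) φ‖ ^ 2 := by
  unfold dev
  rw [Nat.card_eq_fintype_card, finsum_eq_sum_of_fintype]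
  congr 1
  refine Finset.sum_congr rfl fun g _ => ?_
  rw [Ec_frob, avg_mn]

/-- the mean square inequality -/
theorem sum_dev (σ : HeightOneSpectrum (𝓞 K) → Gal(Kbar K/K))
    (hσ : ∀ v, IsFrob K (Kbar K) v (σ v)) {I : Type} [Fintype I]
    (U : I → Subgroup Gal(Kbar K/K)) [∀ i, (U i).Normal]
    (hU : ∀ i, IsOpen (U i : Set Gal(Kbar K/K)))
    (hdis : ∀ i j, i ≠ j → U i ⊔ U j = ⊤) (φ : HeightOneSpectrum (𝓞 K) → ℂ) (B : ℝ)
    (hB : ∀ v, ‖φ v‖ ≤ B) (ε : ℝ) (hε : 0 < ε) :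
    ∀ᶠ N in atTop, ∑ i, dev σ (U i) φ N ≤
      (avg K (fun v => ((‖φ v‖ ^ 2 : ℝ) : ℂ)) N).re - ‖avg K φ N‖ ^ 2 + ε := by
  haveI : ∀ i, Finite (Gal(Kbar K/K) ⧸ U i) := fun i => Subgroup.quotient_finite_of_isOpen _ (hU i)
  letI : ∀ i, Fintype (Gal(Kbar K/K) ⧸ U i) := fun i => Fintype.ofFinite _
  filter_upwards [variance σ hσ U hU hdis φ B (bound_nonneg φ B hB) hB ε hε] with N hN
  rw [Finset.sum_congr rfl fun i _ => dev_eq σ (U i) φ N]
  have h1 : (avg K (fun v => ((‖φ v‖ ^ 2 : ℝ) : ℂ)) N).re =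
      (∑ v ∈ upto K N, ‖φ v‖ ^ 2) / (upto K N).card := by
    rw [avg_mn]
    unfold mn
    rw [← Complex.ofReal_sum, ← Complex.ofReal_natCast, ← Complex.ofReal_div, Complex.ofReal_re]
  rw [h1, avg_mn]
  exact hN

/-- along an ultrafilter -/
theorem few_dev (σ : HeightOneSpectrum (𝓞 K) → Gal(Kbar K/K))
    (hσ : ∀ v, IsFrob K (Kbar K) v (σ v)) {I : Type}
    (U : I → Subgroup Gal(Kbar K/K)) [∀ i, (U i).Normal]
    (hU : ∀ i, IsOpen (U i : Set Gal(Kbar K/K)))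
    (hdis : ∀ i j, i ≠ j → U i ⊔ U j = ⊤) (φ : HeightOneSpectrum (𝓞 K) → ℂ) (B : ℝ)
    (hB : ∀ v, ‖φ v‖ ≤ B) (w : Ultrafilter ℕ) (hw : (w : Filter ℕ) ≤ atTop) (δ : ℝ) (hδ : 0 < δ)
    (X : Set I) (hX : ∀ i ∈ X, ∀ ε : ℝ, 0 < ε → ∀ᶠ N in (w : Filter ℕ),
      δ ^ 2 - ε < dev σ (U i) φ N) :
    X.encard ≤ (⌊B ^ 2 / δ ^ 2⌋₊ : ℕ) := by
  haveI : ∀ i, Finite (Gal(Kbar K/K) ⧸ U i) := fun i => Subgroup.quotient_finite_of_isOpen _ (hU i)
  letI : ∀ i, Fintype (Gal(Kbar K/K) ⧸ U i) := fun i => Fintype.ofFinite _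
  have hfin : ∀ T : Finset I, (T : Set I) ⊆ X → (T.card : ℝ) * δ ^ 2 ≤ B ^ 2 := by
    intro T hT
    refine few σ hσ U hU hdis φ B hB w hw δ T fun i hi ε hε => ?_
    filter_upwards [hX i (hT hi) ε hε] with N hN
    rwa [dev_eq] at hN
  by_contra hcon
  rw [not_le] at hcon
  have h8 : ((⌊B ^ 2 / δ ^ 2⌋₊ + 1 : ℕ) : ℕ∞) ≤ X.encard := by
    rw [Nat.cast_add, Nat.cast_one]
    exact Order.add_one_le_of_lt hcon
  obtain ⟨T', hT', hTc⟩ := Set.exists_subset_encard_eq h8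
  have hT'f : T'.Finite := Set.finite_of_encard_eq_coe hTc
  have h9 := hfin hT'f.toFinset (by rw [Set.Finite.coe_toFinset]; exact hT')
  have h10 : hT'f.toFinset.card = ⌊B ^ 2 / δ ^ 2⌋₊ + 1 := by
    rw [hT'f.encard_eq_coe_toFinset_card] at hTc
    exact_mod_cast hTc
  rw [h10, ← le_div_iff₀ (by positivity)] at h9
  have h11 := Nat.lt_floor_add_one (B ^ 2 / δ ^ 2)
  push_cast at h9
  linarith

/-- only finitely many primes divide a given number -/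
theorem finite_above {p : ℕ} (hp : p ≠ 0) :
    {v : HeightOneSpectrum (𝓞 K) | (p : 𝓞 K) ∈ v.asIdeal}.Finite := by
  have h1 : (Ideal.span {(p : 𝓞 K)} : Ideal (𝓞 K)) ≠ 0 := by
    intro h
    have h2 : (p : 𝓞 K) = 0 := Ideal.span_singleton_eq_bot.1 h
    exact hp (by exact_mod_cast h2)
  refine (Ideal.finite_factors h1).subset fun v hv => ?_
  exact Ideal.dvd_span_singleton.2 hv

/-- the quotient by `Hm K p` and the residue classes -/
theorem exists_equiv (σ : HeightOneSpectrum (𝓞 K) → Gal(Kbar K/K))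
    (hσ : ∀ v, IsFrob K (Kbar K) v (σ v)) {p : ℕ} (hp : p.Prime)
    (hidx : (Hm K p).index = p - 1) :
    ∃ e : (Gal(Kbar K/K) ⧸ Hm K p) ≃ (ZMod p)ˣ, ∀ g : Gal(Kbar K/K) ⧸ Hm K p,
      (∀ h, _root_.IsConj g h ↔ g = h) ∧
      {v : HeightOneSpectrum (𝓞 K) |
        ¬ (v ∈ {v : HeightOneSpectrum (𝓞 K) | ((Ideal.absNorm v.asIdeal : ℕ) : ZMod p) =
          ((e g : (ZMod p)ˣ) : ZMod p)} ↔ _root_.IsConj g (cl (Hm K p) (σ v)))}.Finite := by
  haveI : Fact p.Prime := ⟨hp⟩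
  obtain ⟨ζ, hζ⟩ := exists_prim K hp.ne_zero
  have hker : ∀ τ : Gal(Kbar K/K), τ ∈ Hm K p ↔ hζ.autToPow K τ = 1 := by
    intro τ
    rw [mem_Hm_iff hp.ne_zero hζ]
    constructor
    · intro h
      exact chi_one' hζ h
    · intro h
      have h1 := hζ.autToPow_spec K τ
      haveI : Fact (1 < p) := ⟨hp.one_lt⟩
      rw [h, Units.val_one, ZMod.val_one, pow_one] at h1
      exact h1.symm
  let t : Gal(Kbar K/K) ⧸ Hm K p →* (ZMod p)ˣ :=
    QuotientGroup.lift (Hm K p) (hζ.autToPow K) fun τ hτ => (hker τ).1 hτ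
  have ht : ∀ τ : Gal(Kbar K/K), t (QuotientGroup.mk τ) = hζ.autToPow K τ := fun τ => rfl
  have hinj : Function.Injective t := by
    rw [injective_iff_map_eq_one]
    intro a ha
    obtain ⟨τ, rfl⟩ := QuotientGroup.mk_surjective a
    rw [ht] at ha
    exact (QuotientGroup.eq_one_iff _).2 ((hker τ).2 ha)
  haveI := Hm_finite (K := K) hp.ne_zero
  have hcard : Nat.card (ZMod p)ˣ ≤ Nat.card (Gal(Kbar K/K) ⧸ Hm K p) := by
    have h1 : Nat.card (Gal(Kbar K/K) ⧸ Hm K p) = p - 1 := hidx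
    rw [h1, Nat.card_eq_fintype_card, ZMod.card_units]
  have hbij : Function.Bijective t :=
    (Nat.bijective_iff_injective_and_card t).2
      ⟨hinj, le_antisymm (Nat.card_le_card_of_injective _ hinj) hcard⟩
  refine ⟨Equiv.ofBijective t hbij, fun g => ?_⟩
  have hconj : ∀ h, _root_.IsConj g h ↔ g = h := by
    intro h
    constructor
    · intro hc
      obtain ⟨c, hc⟩ := isConj_iff.1 hc
      apply hinj
      rw [← hc, map_mul, map_mul, map_inv]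
      rw [mul_comm (t c), mul_assoc, mul_inv_cancel, mul_one]
    · rintro rfl
      exact _root_.IsConj.refl _
  refine ⟨hconj, (finite_above (K := K) hp.ne_zero).subset fun v hv => ?_⟩
  by_contra hcon
  apply hv
  rw [hconj]
  have h1 := chi_frob hζ v hcon (hσ v)
  rw [Set.mem_ofPred_eq, ← h1]
  constructor
  · intro h
    apply hinj
    exact (Units.ext h).symm
  · intro h
    rw [h]
    rfl

theorem sq_sub_tendsto {a b : ℕ → ℂ} {B : ℝ} (ha : ∀ N, ‖a N‖ ≤ B) (hb : ∀ N, ‖b N‖ ≤ B)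
    (h : Tendsto (fun N => a N - b N) atTop (𝓝 0)) :
    Tendsto (fun N => ‖a N‖ ^ 2 - ‖b N‖ ^ 2) atTop (𝓝 0) := by
  rw [tendsto_zero_iff_norm_tendsto_zero] at h ⊢
  refine squeeze_zero (fun N => norm_nonneg _) (fun N => ?_) (by simpa using h.const_mul (2 * B))
  have h1 : ‖a N‖ ^ 2 - ‖b N‖ ^ 2 = (‖a N‖ + ‖b N‖) * (‖a N‖ - ‖b N‖) := by ring
  rw [h1, Real.norm_eq_abs, abs_mul]
  have h2 : |‖a N‖ - ‖b N‖| ≤ ‖a N - b N‖ := abs_norm_sub_norm_le _ _
  have h3 : |‖a N‖ + ‖b N‖| ≤ 2 * B := by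
    rw [abs_of_nonneg (by positivity)]
    linarith [ha N, hb N]
  exact mul_le_mul h3 h2 (abs_nonneg _) ((abs_nonneg _).trans h3)

theorem avgOn_norm (S : Set (HeightOneSpectrum (𝓞 K))) (φ : HeightOneSpectrum (𝓞 K) → ℂ) (B : ℝ)
    (hB : ∀ v, ‖φ v‖ ≤ B) (N : ℕ) : ‖avgOn K S φ N‖ ≤ B := by
  classical
  rw [avgOn_eq]
  exact mn_norm ((upto K N).filter (· ∈ S)) φ hB (bound_nonneg φ B hB)

/-- residue classes and Frobenius classes -/
theorem devMod_sub (σ : HeightOneSpectrum (𝓞 K) → Gal(Kbar K/K))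
    (hσ : ∀ v, IsFrob K (Kbar K) v (σ v)) {p : ℕ} (hp : p.Prime)
    (hidx : (Hm K p).index = p - 1) (φ : HeightOneSpectrum (𝓞 K) → ℂ) (B : ℝ)
    (hB : ∀ v, ‖φ v‖ ≤ B) :
    Tendsto (fun N => dev σ (Hm K p) φ N - devMod K p φ N) atTop (𝓝 0) := by
  haveI : Fact p.Prime := ⟨hp⟩
  obtain ⟨e, he⟩ := exists_equiv σ hσ hp hidx
  haveI := Hm_finite (K := K) hp.ne_zero
  letI : Fintype (Gal(Kbar K/K) ⧸ Hm K p) := Fintype.ofFinite _
  have h1 : ∀ N, dev σ (Hm K p) φ N - devMod K p φ N =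
      (Fintype.card (Gal(Kbar K/K) ⧸ Hm K p) : ℝ)⁻¹ * ∑ g : Gal(Kbar K/K) ⧸ Hm K p,
        (‖Ec (upto K N) (fun v => cl (Hm K p) (σ v)) φ g - avg K φ N‖ ^ 2 -
        ‖avgOn K {v | ((Ideal.absNorm v.asIdeal : ℕ) : ZMod p) = ((e g : (ZMod p)ˣ) : ZMod p)} φ N -
          avg K φ N‖ ^ 2) := by
    intro N
    rw [dev_eq]
    unfold devMod
    rw [finsum_eq_sum_of_fintype, ← Nat.card_congr e, Nat.card_eq_fintype_card,
      ← e.sum_comp, ← mul_sub, ← Finset.sum_sub_distrib, avg_mn]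
  have h2 : Tendsto (fun N => (Fintype.card (Gal(Kbar K/K) ⧸ Hm K p) : ℝ)⁻¹ *
      ∑ g : Gal(Kbar K/K) ⧸ Hm K p,
        (‖Ec (upto K N) (fun v => cl (Hm K p) (σ v)) φ g - avg K φ N‖ ^ 2 -
        ‖avgOn K {v | ((Ideal.absNorm v.asIdeal : ℕ) : ZMod p) = ((e g : (ZMod p)ˣ) : ZMod p)} φ N -
          avg K φ N‖ ^ 2)) atTop (𝓝 ((Fintype.card (Gal(Kbar K/K) ⧸ Hm K p) : ℝ)⁻¹ *
            ∑ _g : Gal(Kbar K/K) ⧸ Hm K p, (0 : ℝ))) := by
    refine Tendsto.const_mul _ (tendsto_finsetSum _ fun g _ => ?_)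
    have hb1 : ∀ N, ‖avg K φ N‖ ≤ B := fun N => by
      rw [avg_mn]
      exact mn_norm _ _ hB (bound_nonneg φ B hB)
    refine sq_sub_tendsto (B := 2 * B) (fun N => ?_) (fun N => ?_) ?_
    · refine (norm_sub_le _ _).trans ?_
      have := Ec_norm (upto K N) (fun v => cl (Hm K p) (σ v)) φ hB (bound_nonneg φ B hB) g
      linarith [hb1 N]
    · refine (norm_sub_le _ _).trans ?_
      have := avgOn_norm {v | ((Ideal.absNorm v.asIdeal : ℕ) : ZMod p) =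
        ((e g : (ZMod p)ˣ) : ZMod p)} φ B hB N
      linarith [hb1 N]
    · have h3 := Ec_sub σ hσ (Hm K p) (Hm_open hp.ne_zero) g
        {v | ((Ideal.absNorm v.asIdeal : ℕ) : ZMod p) = ((e g : (ZMod p)ˣ) : ZMod p)}
        (he g).2 φ B hB
      refine h3.congr fun N => ?_
      ring
  rw [Finset.sum_const_zero, mul_zero] at h2
  exact h2.congr fun N => (h1 N).symm

/-- descent from residue classes -/
theorem descent_mod (σ : HeightOneSpectrum (𝓞 K) → Gal(Kbar K/K))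
    (hσ : ∀ v, IsFrob K (Kbar K) v (σ v)) {I : Type} (p : I → ℕ) (hinj : Function.Injective p)
    (hp : ∀ i, (p i).Prime) (a : ∀ i, (ZMod (p i))ˣ) (hw : ¬ Summable fun i => ((p i : ℕ) : ℝ)⁻¹)
    (φ : HeightOneSpectrum (𝓞 K) → ℂ) (B : ℝ) (hB : ∀ v, ‖φ v‖ ≤ B) (c : ℂ)
    (hE : ∀ i, Tendsto (avgOn K {v | ((Ideal.absNorm v.asIdeal : ℕ) : ZMod (p i)) =
      (a i : ZMod (p i))} φ) atTop (𝓝 c)) :
    Tendsto (avg K φ) atTop (𝓝 c) := by
  classical
  obtain ⟨m, hm, hmp⟩ := exists_mod K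
  -- the indices whose prime does not divide `m`
  let J : Type := {i : I // ¬ p i ∣ m}
  have hfin : {i : I | p i ∣ m}.Finite := by
    refine Set.Finite.of_finite_image (f := p) ?_ (hinj.injOn)
    refine (Nat.divisors m).finite_toSet.subset ?_
    rintro _ ⟨i, hi, rfl⟩
    exact Finset.mem_coe.2 (Nat.mem_divisors.2 ⟨hi, hm⟩)
  choose e he using fun j : J => exists_equiv σ hσ (hp j.1) (hmp (p j.1) (hp j.1) j.2).1
  let U : J → Subgroup Gal(Kbar K/K) := fun j => Hm K (p j.1)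
  haveI : ∀ j, (U j).Normal := fun j => Hm_normal _
  have hU : ∀ j, IsOpen (U j : Set Gal(Kbar K/K)) := fun j => Hm_open (hp j.1).ne_zero
  haveI : ∀ j, Finite (Gal(Kbar K/K) ⧸ U j) := fun j => Hm_finite (hp j.1).ne_zero
  letI : ∀ j, Fintype (Gal(Kbar K/K) ⧸ U j) := fun j => Fintype.ofFinite _
  let g : ∀ j : J, Gal(Kbar K/K) ⧸ U j := fun j => (e j).symm (a j.1)
  have hwt : ∀ j : J, wt (g j) = ((p j.1 - 1 : ℕ) : ℝ)⁻¹ := by
    intro j
    rw [wt_eq]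
    have h1 : Nat.card {h : Gal(Kbar K/K) ⧸ U j // _root_.IsConj (g j) h} = 1 := by
      rw [Nat.card_eq_one_iff_unique]
      refine ⟨⟨fun x y => ?_⟩, ⟨⟨g j, _root_.IsConj.refl _⟩⟩⟩
      apply Subtype.ext
      rw [← ((he j (g j)).1 x.1).1 x.2, ← ((he j (g j)).1 y.1).1 y.2]
    have h2 : Nat.card (Gal(Kbar K/K) ⧸ U j) = p j.1 - 1 := (hmp (p j.1) (hp j.1) j.2).1
    rw [h1, h2, Nat.cast_one, one_div]
  refine descent σ hσ U hU ?_ g ?_ φ B hB c ?_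
  · intro i j hij
    exact (hmp _ (hp i.1) i.2).2 _ (hp j.1) j.2 fun h => hij (Subtype.ext (hinj h))
  · intro hs
    apply hw
    have h1 : Summable fun j : J => ((p j.1 : ℕ) : ℝ)⁻¹ := by
      refine Summable.of_nonneg_of_le (fun j => by positivity) (fun j => ?_) hs
      rw [hwt]
      have h2 := (hp j.1).two_le
      have h3 : (0 : ℝ) < ((p j.1 - 1 : ℕ) : ℝ) := by
        exact_mod_cast (by omega : 0 < p j.1 - 1)
      refine inv_anti₀ h3 ?_
      exact_mod_cast Nat.sub_le _ _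
    have h2 : Summable ((fun i => ((p i : ℕ) : ℝ)⁻¹) ∘
        (Subtype.val : (({i : I | p i ∣ m}ᶜ : Set I) : Type) → I)) := h1
    exact (hfin.summable_compl_iff).1 h2
  · intro j
    refine Ec_tendsto σ hσ (U j) (hU j) (g j)
      {v | ((Ideal.absNorm v.asIdeal : ℕ) : ZMod (p j.1)) = (a j.1 : ZMod (p j.1))} ?_ φ B hB c
      (hE j.1)
    have h1 := (he j (g j)).2
    have h2 : e j (g j) = a j.1 := (e j).apply_symm_apply _
    rw [h2] at h1
    exact h1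

end Pool.Agent.Run7.h271.CC
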