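import Pool.Agent.Run7.h271.CC.Abs
import Pool.Agent.Run7.h271.TW.Tw

/-! Conditional means on Frobenius classes of many disjoint extensions. -/

set_option autoImplicit false
set_option linter.style.haveILetI false

namespace Pool.Agent.Run7.h271.CC

open Pool.Agent.K4H40.ST
open NumberField IsDedekindDomain Filter Topology MeasureTheory
open Pool.Agent.W540.BE (upto mem_upto cheb_mean)

variable {K : Type} [Field K] [NumberField K]

theorem avg_mn (φ : HeightOneSpectrum (𝓞 K) → ℂ) (N : ℕ) : avg K φ N = mn (upto K N) φ :=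
  Fld.avg_eq φ N

/-- the image of an element in the quotient -/
noncomputable def cl (U : Subgroup Gal(Kbar K/K)) [U.Normal] (τ : Gal(Kbar K/K)) : Gal(Kbar K/K) ⧸ U :=
  QuotientGroup.mk τ

theorem mean_cls (σ : HeightOneSpectrum (𝓞 K) → Gal(Kbar K/K))
    (hσ : ∀ v, IsFrob K (Kbar K) v (σ v)) (U : Subgroup Gal(Kbar K/K)) [U.Normal]
    (hU : IsOpen (U : Set Gal(Kbar K/K))) [Fintype (Gal(Kbar K/K) ⧸ U)]
    (ψ : Gal(Kbar K/K) ⧸ U → ℂ) (hψ : ∀ a g, ψ (g * a * g⁻¹) = ψ a) :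
    Tendsto (fun N => mn (upto K N) fun v => ψ (cl U (σ v))) atTop
      (𝓝 ((Fintype.card (Gal(Kbar K/K) ⧸ U) : ℂ)⁻¹ * ∑ q, ψ q)) := by
  have h1 := cheb_mean (F := K) U hU ψ hψ σ hσ
  rw [← Nat.card_eq_fintype_card, ← finsum_eq_sum_of_fintype]
  have h2 := (Fld.avg_iff (K := K) (fun v => ψ (QuotientGroup.mk (σ v))) _).2 h1
  refine h2.congr fun N => ?_
  exact avg_mn _ N

theorem lim_kap (σ : HeightOneSpectrum (𝓞 K) → Gal(Kbar K/K))
    (hσ : ∀ v, IsFrob K (Kbar K) v (σ v)) (U : Subgroup Gal(Kbar K/K)) [U.Normal]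
    (hU : IsOpen (U : Set Gal(Kbar K/K))) [Fintype (Gal(Kbar K/K) ⧸ U)]
    (g : Gal(Kbar K/K) ⧸ U) :
    Tendsto (fun N => mn (upto K N) fun v => (kap g (cl U (σ v)) : ℂ)) atTop
      (𝓝 ((Fintype.card (Gal(Kbar K/K) ⧸ U) : ℂ)⁻¹)) := by
  have h := mean_cls σ hσ U hU (fun a => (kap g a : ℂ)) (fun a t => by rw [kap_conj])
  have h2 : ∑ q : Gal(Kbar K/K) ⧸ U, (kap g q : ℂ) = 1 := by
    rw [← Complex.ofReal_sum, kap_sum, Complex.ofReal_one]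
  rw [h2, mul_one] at h
  exact h

theorem lim_kap2 (σ : HeightOneSpectrum (𝓞 K) → Gal(Kbar K/K))
    (hσ : ∀ v, IsFrob K (Kbar K) v (σ v)) (U U' : Subgroup Gal(Kbar K/K)) [U.Normal] [U'.Normal]
    (hU : IsOpen (U : Set Gal(Kbar K/K))) (hU' : IsOpen (U' : Set Gal(Kbar K/K)))
    [Fintype (Gal(Kbar K/K) ⧸ U)] [Fintype (Gal(Kbar K/K) ⧸ U')] (hUU : U ⊔ U' = ⊤)
    (g : Gal(Kbar K/K) ⧸ U) (g' : Gal(Kbar K/K) ⧸ U') :
    Tendsto (fun N => mn (upto K N) fun v => (kap g (cl U (σ v)) : ℂ) *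
        (kap g' (cl U' (σ v)) : ℂ)) atTop
      (𝓝 ((Fintype.card (Gal(Kbar K/K) ⧸ U) : ℂ)⁻¹ *
        (Fintype.card (Gal(Kbar K/K) ⧸ U') : ℂ)⁻¹)) := by
  have hW : IsOpen ((U ⊓ U' : Subgroup Gal(Kbar K/K)) : Set Gal(Kbar K/K)) := hU.inter hU'
  haveI : Finite (Gal(Kbar K/K) ⧸ (U ⊓ U')) := Subgroup.quotient_finite_of_isOpen _ hW
  letI : Fintype (Gal(Kbar K/K) ⧸ (U ⊓ U')) := Fintype.ofFinite _
  have h := mean_cls σ hσ (U ⊓ U') hW
    (fun q => (kap g (prj1 U U' q) : ℂ) * (kap g' (prj2 U U' q) : ℂ))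
    (fun a t => by rw [map_mul, map_mul, map_inv, map_mul, map_mul, map_inv, kap_conj, kap_conj])
  rw [prj_sum U U' hUU g g'] at h
  exact h

theorem card_ne' : ∀ᶠ N : ℕ in atTop, (upto K N).card ≠ 0 := by
  filter_upwards [TW.card_ne (K := K)] with N hN h
  rw [h] at hN
  simp at hN

/-- the variance inequality for the Frobenius classes of disjoint extensions -/
theorem variance (σ : HeightOneSpectrum (𝓞 K) → Gal(Kbar K/K))
    (hσ : ∀ v, IsFrob K (Kbar K) v (σ v)) {I : Type} [Fintype I]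
    (U : I → Subgroup Gal(Kbar K/K)) [∀ i, (U i).Normal]
    (hU : ∀ i, IsOpen (U i : Set Gal(Kbar K/K))) [∀ i, Fintype (Gal(Kbar K/K) ⧸ U i)]
    (hdis : ∀ i j, i ≠ j → U i ⊔ U j = ⊤) (F : HeightOneSpectrum (𝓞 K) → ℂ) (B : ℝ) (hB0 : 0 ≤ B)
    (hB : ∀ v, ‖F v‖ ≤ B) (ε : ℝ) (hε : 0 < ε) :
    ∀ᶠ N in atTop, ∑ i, (Fintype.card (Gal(Kbar K/K) ⧸ U i) : ℝ)⁻¹ *
        ∑ g, ‖Ec (upto K N) (fun v => cl (U i) (σ v)) F g - mn (upto K N) F‖ ^ 2 ≤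
      (∑ v ∈ upto K N, ‖F v‖ ^ 2) / (upto K N).card - ‖mn (upto K N) F‖ ^ 2 + ε :=
  core (fun N => upto K N) card_ne' (fun i => Gal(Kbar K/K) ⧸ U i)
    (fun i v => cl (U i) (σ v)) (fun i g => lim_kap σ hσ (U i) (hU i) g)
    (fun i j hij g g' => lim_kap2 σ hσ (U i) (U j) (hU i) (hU j) (hdis i j hij) g g') F B hB0 hB
    ε hε

theorem bound_nonneg (F : HeightOneSpectrum (𝓞 K) → ℂ) (B : ℝ) (hB : ∀ v, ‖F v‖ ≤ B) : 0 ≤ B :=
  (norm_nonneg _).trans (hB (Fld.exists_not_mem ∅ Set.finite_empty).choose)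

/-- from the classes to all primes -/
theorem descent (σ : HeightOneSpectrum (𝓞 K) → Gal(Kbar K/K))
    (hσ : ∀ v, IsFrob K (Kbar K) v (σ v)) {I : Type}
    (U : I → Subgroup Gal(Kbar K/K)) [∀ i, (U i).Normal]
    (hU : ∀ i, IsOpen (U i : Set Gal(Kbar K/K))) [∀ i, Fintype (Gal(Kbar K/K) ⧸ U i)]
    (hdis : ∀ i j, i ≠ j → U i ⊔ U j = ⊤) (g : ∀ i, Gal(Kbar K/K) ⧸ U i)
    (hw : ¬ Summable fun i => wt (g i)) (F : HeightOneSpectrum (𝓞 K) → ℂ) (B : ℝ)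
    (hB : ∀ v, ‖F v‖ ≤ B) (c : ℂ)
    (hE : ∀ i, Tendsto (fun N => Ec (upto K N) (fun v => cl (U i) (σ v)) F (g i)) atTop (𝓝 c)) :
    Tendsto (avg K F) atTop (𝓝 c) := by
  have h1 := descent_abs (fun N => upto K N) (fun i => Gal(Kbar K/K) ⧸ U i)
    (fun i v => cl (U i) (σ v)) F B hB
    (fun s ε hε => variance σ hσ (I := s) (fun i => U i.1) (fun i => hU i.1)
      (fun i j hij => hdis i.1 j.1 fun h => hij (Subtype.ext h)) F B (bound_nonneg F B hB) hB ε hε)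
    g hw c hE
  refine h1.congr fun N => ?_
  exact (avg_mn F N).symm

/-- few families far from the mean -/
theorem few (σ : HeightOneSpectrum (𝓞 K) → Gal(Kbar K/K))
    (hσ : ∀ v, IsFrob K (Kbar K) v (σ v)) {I : Type}
    (U : I → Subgroup Gal(Kbar K/K)) [∀ i, (U i).Normal]
    (hU : ∀ i, IsOpen (U i : Set Gal(Kbar K/K))) [∀ i, Fintype (Gal(Kbar K/K) ⧸ U i)]
    (hdis : ∀ i j, i ≠ j → U i ⊔ U j = ⊤) (F : HeightOneSpectrum (𝓞 K) → ℂ) (B : ℝ)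
    (hB : ∀ v, ‖F v‖ ≤ B) (w : Ultrafilter ℕ) (hw : (w : Filter ℕ) ≤ atTop) (δ : ℝ) (s : Finset I)
    (hs : ∀ i ∈ s, ∀ ε : ℝ, 0 < ε → ∀ᶠ N in (w : Filter ℕ),
      δ ^ 2 - ε < (Fintype.card (Gal(Kbar K/K) ⧸ U i) : ℝ)⁻¹ *
        ∑ g, ‖Ec (upto K N) (fun v => cl (U i) (σ v)) F g - mn (upto K N) F‖ ^ 2) :
    (s.card : ℝ) * δ ^ 2 ≤ B ^ 2 :=
  few_abs (fun N => upto K N) (fun i => Gal(Kbar K/K) ⧸ U i)
    (fun i v => cl (U i) (σ v)) F B hB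
    (fun s ε hε => variance σ hσ (I := s) (fun i => U i.1) (fun i => hU i.1)
      (fun i j hij => hdis i.1 j.1 fun h => hij (Subtype.ext h)) F B (bound_nonneg F B hB) hB ε hε)
    w hw δ s hs

/-- the mean over the primes in `S` of norm at most `N` -/
noncomputable def avgOn (F : Type) [Field F] [NumberField F] (S : Set (HeightOneSpectrum (𝓞 F)))
    (φ : HeightOneSpectrum (𝓞 F) → ℂ) (N : ℕ) : ℂ :=
  (∑ᶠ w : {w : HeightOneSpectrum (𝓞 F) // Ideal.absNorm w.asIdeal ≤ N ∧ w ∈ S}, φ w.1) /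
    (Nat.card {w : HeightOneSpectrum (𝓞 F) // Ideal.absNorm w.asIdeal ≤ N ∧ w ∈ S} : ℂ)

open Classical in
theorem avgOn_eq (S : Set (HeightOneSpectrum (𝓞 K))) (φ : HeightOneSpectrum (𝓞 K) → ℂ) (N : ℕ) :
    avgOn K S φ N = (∑ v ∈ (upto K N).filter (· ∈ S), φ v) /
      (((upto K N).filter (· ∈ S)).card : ℂ) := by
  have hs : ∀ v, v ∈ (upto K N).filter (· ∈ S) ↔ (Ideal.absNorm v.asIdeal ≤ N ∧ v ∈ S) :=
    fun v => by rw [Finset.mem_filter, mem_upto]; rfl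
  let e : {v : HeightOneSpectrum (𝓞 K) // Ideal.absNorm v.asIdeal ≤ N ∧ v ∈ S} ≃
      ((upto K N).filter (· ∈ S)) := Equiv.subtypeEquivRight fun v => (hs v).symm
  unfold avgOn
  have h1 : (∑ᶠ v : {v : HeightOneSpectrum (𝓞 K) // Ideal.absNorm v.asIdeal ≤ N ∧ v ∈ S}, φ v.1) =
      ∑ v ∈ (upto K N).filter (· ∈ S), φ v := by
    rw [← Finset.sum_coe_sort, ← finsum_eq_sum_of_fintype, ← finsum_comp_equiv e]
    rfl
  have h2 : Nat.card {v : HeightOneSpectrum (𝓞 K) // Ideal.absNorm v.asIdeal ≤ N ∧ v ∈ S} =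
      ((upto K N).filter (· ∈ S)).card := by
    rw [Nat.card_congr e, Nat.card_eq_fintype_card, Fintype.card_coe]
  rw [h1, h2]

theorem card_atTop : Tendsto (fun N => ((upto K N).card : ℝ)) atTop atTop := by
  have h1 := Fld.card_div (K := K)
  have h2 : Tendsto (fun N : ℕ => (Nat.primeCounting N : ℝ)) atTop atTop :=
    tendsto_natCast_atTop_atTop.comp Nat.tendsto_primeCounting
  have h3 : Tendsto (fun N : ℕ => ((upto K N).card : ℝ) / (Nat.primeCounting N : ℝ)) atTop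
      (𝓝 1) := by
    have h4 := (Complex.continuous_re.tendsto _).comp h1
    rw [Complex.one_re] at h4
    refine h4.congr fun N => ?_
    simp only [Function.comp]
    rw [← Complex.ofReal_natCast, ← Complex.ofReal_natCast, ← Complex.ofReal_div,
      Complex.ofReal_re]
  have h5 := h3.pos_mul_atTop one_pos h2
  refine h5.congr' ?_
  filter_upwards [h2.eventually_gt_atTop 0] with N hN
  rw [div_mul_cancel₀ _ hN.ne']

/-- changing the set of primes by a finite set -/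
theorem Ec_sub (σ : HeightOneSpectrum (𝓞 K) → Gal(Kbar K/K))
    (hσ : ∀ v, IsFrob K (Kbar K) v (σ v)) (U : Subgroup Gal(Kbar K/K)) [U.Normal]
    (hU : IsOpen (U : Set Gal(Kbar K/K))) [Fintype (Gal(Kbar K/K) ⧸ U)]
    (g : Gal(Kbar K/K) ⧸ U) (S : Set (HeightOneSpectrum (𝓞 K)))
    (hS : {v | ¬ (v ∈ S ↔ _root_.IsConj g (cl U (σ v)))}.Finite)
    (F : HeightOneSpectrum (𝓞 K) → ℂ) (B : ℝ) (hB : ∀ v, ‖F v‖ ≤ B) :
    Tendsto (fun N => Ec (upto K N) (fun v => cl U (σ v)) F g - avgOn K S F N) atTop (𝓝 0) :=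
  (Ec_sub_abs (fun N => upto K N) card_atTop (fun v => cl U (σ v)) g (lim_kap σ hσ U hU g) S hS
    F B (bound_nonneg F B hB) hB).congr fun N => by rw [avgOn_eq S F N]

/-- changing the set of primes by a finite set -/
theorem Ec_tendsto (σ : HeightOneSpectrum (𝓞 K) → Gal(Kbar K/K))
    (hσ : ∀ v, IsFrob K (Kbar K) v (σ v)) (U : Subgroup Gal(Kbar K/K)) [U.Normal]
    (hU : IsOpen (U : Set Gal(Kbar K/K))) [Fintype (Gal(Kbar K/K) ⧸ U)]
    (g : Gal(Kbar K/K) ⧸ U) (S : Set (HeightOneSpectrum (𝓞 K)))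
    (hS : {v | ¬ (v ∈ S ↔ _root_.IsConj g (cl U (σ v)))}.Finite)
    (F : HeightOneSpectrum (𝓞 K) → ℂ) (B : ℝ) (hB : ∀ v, ‖F v‖ ≤ B) (c : ℂ)
    (h : Tendsto (avgOn K S F) atTop (𝓝 c)) :
    Tendsto (fun N => Ec (upto K N) (fun v => cl U (σ v)) F g) atTop (𝓝 c) :=
  Ec_tendsto_abs (fun N => upto K N) card_atTop (fun v => cl U (σ v)) g (lim_kap σ hσ U hU g) S hS
    F B (bound_nonneg F B hB) hB c (h.congr fun N => avgOn_eq S F N)

end Pool.Agent.Run7.h271.CC
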